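import Pool.Agent.Lib_helper65.AAO.Defs

/-!
# Project AAO, block MTX: the determinant of a planar function on an induced representation
-/

set_option autoImplicit false

namespace Pool.Agent.AAO

open Polynomial

section MTX

variable {N : Type} [Group N]

open Classical in
/-- the character of the cyclic group generated by `g`, extended by zero -/
noncomputable def mtx_chi (g n : N) : ℤ[X] :=
  if h : ∃ i : ℕ, g ^ i = n then X ^ h.choose else 0

/-- its value at `ζ` -/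
noncomputable def mtx_e (ζ : ℂ) (g n : N) : ℂ := aeval ζ (mtx_chi g n)

section

variable {ζ : ℂ} {g : N} {p : ℕ}

theorem mtx_e_pow (hg : orderOf g = p) (hζ : ζ ^ p = 1) (i : ℕ) :
    mtx_e ζ g (g ^ i) = ζ ^ i := by
  have h : ∃ j : ℕ, g ^ j = g ^ i := ⟨i, rfl⟩
  rw [mtx_e, mtx_chi, dif_pos h, map_pow, aeval_X]
  have h1 := h.choose_spec
  rw [pow_eq_pow_iff_modEq, hg] at h1
  exact pow_eq_pow_of_modEq h1 hζ

theorem mtx_e_zero {n : N} (h : ¬ ∃ i : ℕ, g ^ i = n) : mtx_e ζ g n = 0 := by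
  rw [mtx_e, mtx_chi, dif_neg h, map_zero]

theorem mtx_mem [Finite N] {n : N} : (∃ i : ℕ, g ^ i = n) ↔ n ∈ Subgroup.zpowers g :=
  mem_powers_iff_mem_zpowers

theorem mtx_e_one (hg : orderOf g = p) (hζ : ζ ^ p = 1) : mtx_e ζ g 1 = 1 := by
  have h := mtx_e_pow hg hζ 0
  rwa [pow_zero, pow_zero] at h

theorem mtx_e_mul [Finite N] (hg : orderOf g = p) (hζ : ζ ^ p = 1) (a : N) {c : N}
    (hc : c ∈ Subgroup.zpowers g) : mtx_e ζ g (a * c) = mtx_e ζ g a * mtx_e ζ g c := by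
  obtain ⟨j, rfl⟩ := mtx_mem.2 hc
  by_cases ha : a ∈ Subgroup.zpowers g
  · obtain ⟨i, rfl⟩ := mtx_mem.2 ha
    rw [← pow_add, mtx_e_pow hg hζ, mtx_e_pow hg hζ, mtx_e_pow hg hζ, pow_add]
  · have h1 : a * g ^ j ∉ Subgroup.zpowers g := fun h =>
      ha ((Subgroup.mul_mem_cancel_right _ hc).1 h)
    rw [mtx_e_zero (fun h => h1 (mtx_mem.1 h)), mtx_e_zero (fun h => ha (mtx_mem.1 h)), zero_mul]

theorem mtx_e_star [Finite N] (hp : p ≠ 0) (hg : orderOf g = p) (hζ : ζ ^ p = 1) (n : N) :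
    star (mtx_e ζ g n) = mtx_e ζ g n⁻¹ := by
  by_cases hn : n ∈ Subgroup.zpowers g
  · have h1 : mtx_e ζ g n⁻¹ * mtx_e ζ g n = 1 := by
      rw [← mtx_e_mul hg hζ _ hn, inv_mul_cancel, mtx_e_one hg hζ]
    have h2 : star (mtx_e ζ g n) * mtx_e ζ g n = 1 := by
      obtain ⟨i, rfl⟩ := mtx_mem.2 hn
      rw [mtx_e_pow hg hζ]
      have h3 : ‖ζ‖ = 1 := Complex.norm_eq_one_of_pow_eq_one hζ hp
      have h4 := Complex.conj_mul' (ζ ^ i)
      rw [norm_pow, h3] at h4
      simpa using h4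
    have h5 : mtx_e ζ g n ≠ 0 := right_ne_zero_of_mul_eq_one h1
    exact mul_right_cancel₀ h5 (h2.trans h1.symm)
  · have h1 : n⁻¹ ∉ Subgroup.zpowers g := fun h => hn ((Subgroup.inv_mem_iff _).1 h)
    rw [mtx_e_zero (fun h => h1 (mtx_mem.1 h)), mtx_e_zero (fun h => hn (mtx_mem.1 h)), star_zero]

theorem mtx_e_sum [Fintype N] (hg : orderOf g = p) (hζ : ζ ^ p = 1) (hζ1 : ζ ≠ 1) :
    ∑ n : N, mtx_e ζ g n = 0 := by
  have h1 : ∑ n : N, mtx_e ζ g (n * g) = ∑ n : N, mtx_e ζ g n :=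
    Equiv.sum_comp (Equiv.mulRight g) (fun n => mtx_e ζ g n)
  have h2 : ∀ n : N, mtx_e ζ g (n * g) = mtx_e ζ g n * ζ := fun n => by
    have h := mtx_e_pow hg hζ 1
    rw [pow_one, pow_one] at h
    rw [mtx_e_mul hg hζ n (Subgroup.mem_zpowers g), h]
  simp only [h2] at h1
  rw [← Finset.sum_mul] at h1
  have h3 : (∑ n : N, mtx_e ζ g n) * (ζ - 1) = 0 := by rw [mul_sub, h1]; ring
  rcases mul_eq_zero.1 h3 with h | h
  · exact h
  · exact absurd (sub_eq_zero.1 h) hζ1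

/-- the convolution identity -/
theorem mtx_conv [Fintype N] [Fintype (N ⧸ Subgroup.zpowers g)] (hg : orderOf g = p)
    (hζ : ζ ^ p = 1) (a b : N) : ∑ k : N ⧸ Subgroup.zpowers g,
      mtx_e ζ g (a * Quotient.out k) * mtx_e ζ g ((Quotient.out k)⁻¹ * b) =
        mtx_e ζ g (a * b) := by
  classical
  rw [Finset.sum_eq_single (b : N ⧸ Subgroup.zpowers g)]
  · have h1 : (Quotient.out (b : N ⧸ Subgroup.zpowers g))⁻¹ * b ∈ Subgroup.zpowers g := by
      rw [← QuotientGroup.eq, QuotientGroup.out_eq']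
    rw [← mtx_e_mul hg hζ _ h1]
    congr 1
    group
  · intro k _ hk
    have h1 : (Quotient.out k)⁻¹ * b ∉ Subgroup.zpowers g := by
      rw [← QuotientGroup.eq, QuotientGroup.out_eq']
      exact hk
    rw [mtx_e_zero (n := (Quotient.out k)⁻¹ * b) (fun h => h1 (mtx_mem.1 h)), mul_zero]
  · intro h
    exact absurd (Finset.mem_univ _) h

/-- the matrix of the representation induced from the character -/
noncomputable def mtx_M {G : Type} [Fintype G] (ζ : ℂ) (g : N) (φ : G → N) :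
    Matrix (N ⧸ Subgroup.zpowers g) (N ⧸ Subgroup.zpowers g) ℂ :=
  fun j i => ∑ y : G, mtx_e ζ g ((Quotient.out j)⁻¹ * φ y * Quotient.out i)

/-- the matrix of polynomials -/
noncomputable def mtx_P {G : Type} [Fintype G] (g : N) (φ : G → N) :
    Matrix (N ⧸ Subgroup.zpowers g) (N ⧸ Subgroup.zpowers g) ℤ[X] :=
  fun j i => ∑ y : G, mtx_chi g ((Quotient.out j)⁻¹ * φ y * Quotient.out i)

end

end MTX

/-- the product of the matrix and its adjoint -/
theorem mtx_prod {G N : Type} [Group G] [Group N] [Fintype G] [Fintype N] {φ : G → N}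
    (hφ : Planar φ) {p : ℕ} (hp : p ≠ 0) {g : N} {ζ : ℂ}
    [Fintype (N ⧸ Subgroup.zpowers g)] [DecidableEq (N ⧸ Subgroup.zpowers g)]
    (hg : orderOf g = p) (hζ : ζ ^ p = 1) (hζ1 : ζ ≠ 1) :
    mtx_M ζ g φ * (mtx_M ζ g φ).conjTranspose = (Fintype.card G : ℂ) • 1 := by
  classical
  ext j i
  have e1 : ∀ y y2 : G, ∑ k : N ⧸ Subgroup.zpowers g,
      mtx_e ζ g ((Quotient.out j)⁻¹ * φ y * Quotient.out k) *
        star (mtx_e ζ g ((Quotient.out i)⁻¹ * φ y2 * Quotient.out k)) =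
      mtx_e ζ g ((Quotient.out j)⁻¹ * (φ y * (φ y2)⁻¹) * Quotient.out i) := by
    intro y y2
    rw [← mul_assoc, mul_assoc _ (φ y2)⁻¹, ← mtx_conv hg hζ]
    refine Finset.sum_congr rfl fun k _ => ?_
    rw [mtx_e_star hp hg hζ]
    congr 2
    group
  have e2 : (mtx_M ζ g φ * (mtx_M ζ g φ).conjTranspose) j i =
      ∑ y2 : G, ∑ y : G, mtx_e ζ g ((Quotient.out j)⁻¹ * (φ y * (φ y2)⁻¹) * Quotient.out i) := by
    rw [Matrix.mul_apply]
    simp only [Matrix.conjTranspose_apply, mtx_M, star_sum, Finset.sum_mul_sum, ← e1]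
    rw [Finset.sum_comm]
    rw [Finset.sum_comm (s := (Finset.univ : Finset G)) (t := (Finset.univ : Finset G))]
    refine Finset.sum_congr rfl fun y _ => ?_
    rw [Finset.sum_comm]
  have e3 : ∀ y2 : G, ∑ y : G, mtx_e ζ g ((Quotient.out j)⁻¹ * (φ y * (φ y2)⁻¹) * Quotient.out i) =
      ∑ x : G, mtx_e ζ g ((Quotient.out j)⁻¹ * (φ (x * y2) * (φ y2)⁻¹) * Quotient.out i) :=
    fun y2 => (Equiv.sum_comp (Equiv.mulRight y2) (fun y =>
      mtx_e ζ g ((Quotient.out j)⁻¹ * (φ y * (φ y2)⁻¹) * Quotient.out i))).symm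
  have e4 : ∀ x : G, x ≠ 1 →
      ∑ y2 : G, mtx_e ζ g ((Quotient.out j)⁻¹ * (φ (x * y2) * (φ y2)⁻¹) * Quotient.out i) = 0 := by
    intro x hx
    rw [(hφ x hx).sum_comp (fun n : N => mtx_e ζ g ((Quotient.out j)⁻¹ * n * Quotient.out i))]
    rw [← mtx_e_sum (N := N) hg hζ hζ1]
    exact Equiv.sum_comp ((Equiv.mulLeft (Quotient.out j)⁻¹).trans
      (Equiv.mulRight (Quotient.out i))) (fun n : N => mtx_e ζ g n)
  rw [e2, Finset.sum_congr rfl fun y2 _ => e3 y2, Finset.sum_comm,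
    Finset.sum_eq_single (1 : G) (fun x _ hx => e4 x hx)
      (fun h => absurd (Finset.mem_univ _) h)]
  simp only [one_mul, mul_inv_cancel, mul_one, Finset.sum_const, Finset.card_univ, nsmul_eq_mul,
    Matrix.smul_apply, smul_eq_mul]
  congr 1
  rw [Matrix.one_apply]
  split_ifs with h
  · rw [h, inv_mul_cancel, mtx_e_one hg hζ]
  · refine mtx_e_zero fun h1 => h ?_
    have h2 := mtx_mem.1 h1
    rw [← QuotientGroup.eq, QuotientGroup.out_eq', QuotientGroup.out_eq'] at h2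
    exact h2

theorem mtx_det_P {G N : Type} [Group N] [Fintype G] (φ : G → N) {g : N} (ζ : ℂ)
    [Fintype (N ⧸ Subgroup.zpowers g)] [DecidableEq (N ⧸ Subgroup.zpowers g)] :
    aeval ζ (mtx_P g φ).det = (mtx_M ζ g φ).det := by
  rw [AlgHom.map_det]
  congr 1
  ext j i
  simp only [AlgHom.mapMatrix_apply, Matrix.map_apply, mtx_P, map_sum]
  rfl

/-- the determinant of the planar function on the representation induced from a subgroup of
prime order -/
theorem exists_norm {G N : Type} [Group G] [Group N] [Finite G] [Finite N] (φ : G → N)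
    (hφ : Planar φ) (hc : Nat.card G = Nat.card N) (p : ℕ) (hp : p.Prime) (hpN : p ∣ Nat.card N)
    (ζ : ℂ) (hζ : IsPrimitiveRoot ζ p) : ∃ f : ℤ[X],
      aeval ζ f * (starRingEnd ℂ) (aeval ζ f) = ((Nat.card N ^ (Nat.card N / p) : ℕ) : ℂ) := by
  classical
  have : Fact p.Prime := ⟨hp⟩
  obtain ⟨g, hg⟩ := exists_prime_orderOf_dvd_card' (G := N) p hpN
  have := Fintype.ofFinite G
  have := Fintype.ofFinite N
  have := Fintype.ofFinite (N ⧸ Subgroup.zpowers g)
  refine ⟨(mtx_P g φ).det, ?_⟩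
  have h1 := mtx_prod hφ hp.ne_zero hg hζ.pow_eq_one (hζ.ne_one hp.one_lt)
  have h2 := congrArg Matrix.det h1
  rw [Matrix.det_mul, Matrix.det_conjTranspose, Matrix.det_smul, Matrix.det_one, mul_one] at h2
  have h3 : Fintype.card (N ⧸ Subgroup.zpowers g) = Nat.card N / p := by
    have h4 := Subgroup.card_eq_card_quotient_mul_card_subgroup (Subgroup.zpowers g)
    rw [Nat.card_zpowers, hg] at h4
    rw [h4, Nat.mul_div_cancel _ hp.pos, Nat.card_eq_fintype_card]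
  rw [mtx_det_P, starRingEnd_apply, h2, h3, ← hc, Nat.card_eq_fintype_card, Nat.cast_pow]

end Pool.Agent.AAO
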