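import Pool.Agent.Lib_helper65.AAOF.NRM
import Pool.Agent.Lib_helper65.AAOF.MTX

/-! # AAO, block LOC: planar orders satisfy `W` -/

set_option autoImplicit false

namespace Pool.Agent.AAO

open Polynomial

theorem planar_odd {G N : Type} [Group G] [Group N] [Finite G] [Finite N] (φ : G → N)
    (hφ : Planar φ) (hc : Nat.card G = Nat.card N) : Odd (Nat.card N) := by
  rw [← Nat.not_even_iff_odd]
  intro h
  have h2 : 2 ∣ Nat.card G := by
    rw [hc]
    exact h.two_dvd
  haveI : Fact (Nat.Prime 2) := ⟨Nat.prime_two⟩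
  obtain ⟨x, hx⟩ := exists_prime_orderOf_dvd_card' 2 h2
  have hx1 : x ≠ 1 := by
    rintro rfl
    rw [orderOf_one] at hx
    omega
  have hxx : x * x = 1 := by
    have := pow_orderOf_eq_one x
    rwa [hx, pow_two] at this
  obtain ⟨hinj, hsur⟩ := hφ x hx1
  obtain ⟨y, hy⟩ := hsur 1
  have h3 : (fun y : G => φ (x * y) * (φ y)⁻¹) (x * y) = 1 := by
    show φ (x * (x * y)) * (φ (x * y))⁻¹ = 1
    rw [← mul_assoc, hxx, one_mul]
    have h4 : φ (x * y) * (φ y)⁻¹ = 1 := hy
    rw [mul_inv_eq_one] at h4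
    rw [h4, mul_inv_cancel]
  have h5 := hinj (h3.trans hy.symm)
  exact hx1 (mul_eq_right.1 h5)

theorem planarOrder_W (v : ℕ) (h : PlanarOrder v) : W v := by
  obtain ⟨G, N, iG, iN, fG, fN, hG, hN, φ, hφ⟩ := h
  have hc : Nat.card G = Nat.card N := hG.trans hN.symm
  have hodd : Odd v := by
    have := planar_odd φ hφ hc
    rwa [hN] at this
  refine ⟨hodd, fun p r hp hr hpv hrp hex => ?_⟩
  haveI : Fact p.Prime := ⟨hp⟩
  have hv0 : v ≠ 0 := by
    rintro rfl
    exact absurd hodd (by decide)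
  obtain ⟨f, hf⟩ := exists_norm φ hφ hc p hp (by rw [hN]; exact hpv)
    (Complex.exp (2 * Real.pi * Complex.I / p)) (Complex.isPrimitiveRoot_exp p hp.ne_zero)
  rw [hN] at hf
  have ha0 : (r : ZMod p) ≠ 0 := by
    rw [Ne, ZMod.natCast_eq_zero_iff]
    intro hd
    exact hrp ((Nat.prime_dvd_prime_iff_eq hp hr).1 hd).symm
  have hvp : Odd (v / p) := by
    obtain ⟨w, hw⟩ := hpv
    rw [hw, Nat.mul_div_cancel_left _ hp.pos]
    rw [hw, Nat.odd_mul] at hodd
    exact hodd.2
  have hfin : IsOfFinOrder (r : ZMod p) := by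
    rw [isOfFinOrder_iff_pow_eq_one]
    exact ⟨p - 1, Nat.sub_pos_of_lt hp.one_lt, ZMod.pow_card_sub_one_eq_one ha0⟩
  have hopos : 0 < orderOf (r : ZMod p) := hfin.orderOf_pos
  rcases Nat.even_or_odd (orderOf (r : ZMod p)) with he | ho
  · exfalso
    obtain ⟨j, hj⟩ := he
    have hj0 : 0 < j := by omega
    have h1 : ((r : ZMod p) ^ j) * ((r : ZMod p) ^ j) = 1 := by
      rw [← pow_add, ← hj]
      exact pow_orderOf_eq_one _
    rcases mul_self_eq_one_iff.1 h1 with h2 | h2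
    · have := orderOf_le_of_pow_eq_one hj0 h2
      omega
    · have h3 := even_val p r j (v ^ (v / p)) hp hr hrp h2 _
        (Complex.isPrimitiveRoot_exp p hp.ne_zero) f (pow_ne_zero _ hv0) hf
      rw [Nat.factorization_pow] at h3
      have h4 : Odd ((v / p) * v.factorization r) := hvp.mul hex
      rw [Finsupp.smul_apply, smul_eq_mul] at h3
      exact (Nat.not_even_iff_odd.2 h4) h3
  · obtain ⟨i, hi⟩ := ho
    refine ⟨(r : ZMod p) ^ (i + 1), ?_⟩
    rw [← pow_add]
    have h1 : i + 1 + (i + 1) = orderOf (r : ZMod p) + 1 := by omega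
    rw [h1, pow_succ, pow_orderOf_eq_one, one_mul]

end Pool.Agent.AAO

example : type_of% @Pool.Agent.AAO.planar_odd := @Pool.Agent.AAO.planar_odd
example : type_of% @Pool.Agent.AAO.planarOrder_W := @Pool.Agent.AAO.planarOrder_W
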