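import Pool.Agent.Lib_helper65.AAOF.MER

/-! # AAO, block BAS: the start of the iteration -/

namespace Pool.Agent.AAO

/-- the summand of `A` -/
noncomputable def BAS_f (J n : ℕ) : ℝ := wt J n / n

theorem BAS_f_nonneg (J n : ℕ) : 0 ≤ BAS_f J n := by
  unfold BAS_f wt
  positivity

theorem BAS_f_one (J : ℕ) : BAS_f J 1 = 1 := by
  simp [BAS_f, wt]

theorem BAS_f_mul (J : ℕ) {m n : ℕ} (h : Nat.Coprime m n) :
    BAS_f J (m * n) = BAS_f J m * BAS_f J n := by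
  unfold BAS_f wt
  rw [h.primeFactors_mul, Finset.card_union_of_disjoint h.disjoint_primeFactors, Nat.mul_add,
    pow_add, Nat.cast_mul]
  exact mul_div_mul_comm _ _ _ _

theorem BAS_f_pow (J k : ℕ) {p : ℕ} (hp : p.Prime) :
    BAS_f J (p ^ (k + 1)) = (1 / 2) ^ J * (1 / (p : ℝ)) * (1 / (p : ℝ)) ^ k := by
  unfold BAS_f wt
  rw [Nat.primeFactors_prime_pow (Nat.succ_ne_zero k) hp, Finset.card_singleton, mul_one,
    Nat.cast_pow, pow_succ (p : ℝ)]
  have h0 : (p : ℝ) ≠ 0 := by exact_mod_cast hp.ne_zero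
  rw [one_div (p : ℝ), inv_pow]
  field_simp

theorem BAS_hasSum (J : ℕ) {p : ℕ} (hp : p.Prime) :
    HasSum (fun k => BAS_f J (p ^ (k + 1))) ((1 / 2) ^ J * (1 / (p : ℝ)) * (1 - 1 / (p : ℝ))⁻¹) := by
  have h1 : (1 : ℝ) < p := by exact_mod_cast hp.one_lt
  simp_rw [BAS_f_pow J _ hp]
  refine (hasSum_geometric_of_lt_one (by positivity) ?_).mul_left _
  rw [div_lt_one (by linarith)]
  exact h1

theorem BAS_summable (J : ℕ) {p : ℕ} (hp : p.Prime) : Summable (fun k => BAS_f J (p ^ k)) :=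
  (summable_nat_add_iff 1).1 (BAS_hasSum J hp).summable

theorem BAS_tsum_le (J : ℕ) {p : ℕ} (hp : p.Prime) :
    ∑' k, BAS_f J (p ^ k) ≤ Real.exp ((1 / 2) ^ J * (2 * (1 / (p : ℝ)))) := by
  have h2 : (2 : ℝ) ≤ p := by exact_mod_cast hp.two_le
  have h3 : (1 - 1 / (p : ℝ))⁻¹ ≤ 2 := by
    have : 1 / (p : ℝ) ≤ 1 / 2 := by
      apply one_div_le_one_div_of_le <;> linarith
    rw [inv_le_comm₀ (by linarith) (by norm_num)]
    linarith
  rw [(BAS_summable J hp).tsum_eq_zero_add, (BAS_hasSum J hp).tsum_eq, pow_zero, BAS_f_one]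
  calc 1 + (1 / 2) ^ J * (1 / (p : ℝ)) * (1 - 1 / (p : ℝ))⁻¹
      ≤ 1 + (1 / 2) ^ J * (1 / (p : ℝ)) * 2 := by
        gcongr
    _ = (1 / 2) ^ J * (2 * (1 / (p : ℝ))) + 1 := by ring
    _ ≤ _ := Real.add_one_le_exp _

theorem BAS_gen (J N : ℕ) (F : Finset ℕ) (hF : ∀ n ∈ F, n ∈ Nat.smoothNumbers N) :
    ∑ n ∈ F, BAS_f J n ≤ ∏ p ∈ Nat.primesBelow N, ∑' k, BAS_f J (p ^ k) := by
  have hsum : ∀ {p : ℕ}, p.Prime → Summable (fun n : ℕ => ‖BAS_f J (p ^ n)‖) := by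
    intro p hp
    exact (BAS_summable J hp).norm
  obtain ⟨h1, h2⟩ := EulerProduct.summable_and_hasSum_smoothNumbers_prod_primesBelow_tsum
    (BAS_f_one J) (fun h => BAS_f_mul J h) hsum N
  rw [← h2.tsum_eq]
  have hs : Summable (fun m : Nat.smoothNumbers N => BAS_f J m) := h2.summable
  have h3 := hs.sum_le_tsum (F.attach.image
    (fun n => (⟨n.1, hF n.1 n.2⟩ : Nat.smoothNumbers N))) (fun _ _ => BAS_f_nonneg _ _)
  rw [Finset.sum_image] at h3
  · refine le_trans (le_of_eq ?_) h3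
    exact (Finset.sum_attach F (fun n => BAS_f J n)).symm
  · intro a _ b _ hab
    exact Subtype.ext (congrArg (fun x : Nat.smoothNumbers N => (x : ℕ)) hab)

theorem BAS_A_le (J I : ℕ) :
    A J I ≤ ∏ p ∈ Nat.primesBelow (2 ^ I + 1), ∑' k, BAS_f J (p ^ k) := by
  classical
  refine le_trans (le_of_eq ?_) (BAS_gen J (2 ^ I + 1) ((Finset.Icc 1 (2 ^ I)).filter W) ?_)
  · rfl
  · intro n hn
    rw [Finset.mem_filter, Finset.mem_Icc] at hn
    rw [Nat.mem_smoothNumbers]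
    refine ⟨by omega, fun p hp => ?_⟩
    have h1 := Nat.le_of_mem_primeFactorsList hp
    exact Nat.lt_succ_of_le (h1.trans hn.1.2)

theorem base : ∃ C : ℝ, 0 < C ∧ ∀ J I : ℕ, 1 ≤ I →
    A J I ≤ Real.exp ((1 / 2) ^ J * (C + C * Real.log (I + 2))) := by
  obtain ⟨C, hC, h⟩ := mer
  refine ⟨2 * C, by positivity, fun J I hI => ?_⟩
  refine (BAS_A_le J I).trans ?_
  have h1 : ∏ p ∈ Nat.primesBelow (2 ^ I + 1), ∑' k, BAS_f J (p ^ k) ≤
      ∏ p ∈ Nat.primesBelow (2 ^ I + 1), Real.exp ((1 / 2) ^ J * (2 * (1 / ((p : ℕ) : ℝ)))) := by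
    refine Finset.prod_le_prod (fun p _ => tsum_nonneg fun k => BAS_f_nonneg _ _) fun p hp => ?_
    exact BAS_tsum_le J (Nat.prime_of_mem_primesBelow hp)
  refine h1.trans ?_
  rw [← Real.exp_sum, ← Finset.mul_sum, ← Finset.mul_sum, Real.exp_le_exp]
  have hp2 : ⌊((2 : ℝ) ^ I)⌋₊ = 2 ^ I := by
    have : ((2 : ℝ) ^ I) = ((2 ^ I : ℕ) : ℝ) := by push_cast; rfl
    rw [this, Nat.floor_natCast]
  have h2 : ∑ p ∈ Nat.primesBelow (2 ^ I + 1), (1 : ℝ) / ((p : ℕ) : ℝ) ≤ C + C * Real.log (I + 2) := by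
    have h3 := h ((2 : ℝ) ^ I) (one_le_pow₀ (by norm_num))
    rw [hp2, Real.log_pow] at h3
    calc ∑ p ∈ Nat.primesBelow (2 ^ I + 1), (1 : ℝ) / ((p : ℕ) : ℝ)
        ≤ ∑ p ∈ (Finset.Icc 1 (2 ^ I)).filter Nat.Prime, (1 : ℝ) / p := by
          refine Finset.sum_le_sum_of_subset_of_nonneg (fun p hp => ?_) fun _ _ _ => by positivity
          rw [Nat.mem_primesBelow] at hp
          rw [Finset.mem_filter, Finset.mem_Icc]
          exact ⟨⟨hp.2.one_lt.le, Nat.le_of_lt_succ hp.1⟩, hp.2⟩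
      _ ≤ C + C * Real.log (1 + I * Real.log 2) := h3
      _ ≤ C + C * Real.log (I + 2) := by
          have hl : Real.log 2 ≤ 1 := by
            have := Real.log_two_lt_d9
            linarith
          have hI' : (0 : ℝ) ≤ I := Nat.cast_nonneg _
          have hl0 : 0 ≤ Real.log 2 := Real.log_nonneg (by norm_num)
          have : Real.log (1 + I * Real.log 2) ≤ Real.log (I + 2) :=
            Real.log_le_log (by positivity) (by nlinarith)
          gcongr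
  calc (1 / 2 : ℝ) ^ J * (2 * ∑ p ∈ Nat.primesBelow (2 ^ I + 1), (1 : ℝ) / ((p : ℕ) : ℝ))
      ≤ (1 / 2) ^ J * (2 * (C + C * Real.log (I + 2))) := by gcongr
    _ = _ := by ring

end Pool.Agent.AAO
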