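import Pool.Agent.Lib_helper65.AAOF.SEL

/-! # AAO, block CLS: square classes and rough numbers in them -/

namespace Pool.Agent.AAO

open Classical in
theorem cls_one (p : ℕ) (hp : p.Prime) (hp2 : p ≠ 2) :
    ((Finset.range p).filter (fun a : ℕ => ¬ p ∣ a ∧ IsSquare (a : ZMod p))).card * 2 = p - 1 := by
  haveI : Fact p.Prime := ⟨hp⟩
  have hchar : ringChar (ZMod p) ≠ 2 := by
    rw [ZMod.ringChar_zmod_n]
    exact hp2
  -- transport to `ZMod p`
  have h1 : ((Finset.range p).filter (fun a : ℕ => ¬ p ∣ a ∧ IsSquare (a : ZMod p))).card =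
      ((Finset.univ : Finset (ZMod p)).filter (fun a => a ≠ 0 ∧ IsSquare a)).card := by
    refine Finset.card_bij (fun a _ => (a : ZMod p)) ?_ ?_ ?_
    · intro a ha
      rw [Finset.mem_filter] at ha ⊢
      refine ⟨Finset.mem_univ _, ?_, ha.2.2⟩
      rw [Ne, ZMod.natCast_eq_zero_iff]
      exact ha.2.1
    · intro a ha b hb hab
      rw [Finset.mem_filter, Finset.mem_range] at ha hb
      have := (ZMod.natCast_eq_natCast_iff' a b p).1 hab
      rwa [Nat.mod_eq_of_lt ha.1, Nat.mod_eq_of_lt hb.1] at this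
    · intro b hb
      rw [Finset.mem_filter] at hb
      refine ⟨b.val, ?_, ZMod.natCast_zmod_val b⟩
      rw [Finset.mem_filter, Finset.mem_range]
      refine ⟨ZMod.val_lt b, ?_, ?_⟩
      · rw [← ZMod.natCast_eq_zero_iff, ZMod.natCast_zmod_val]
        exact hb.2.1
      · rw [ZMod.natCast_zmod_val]
        exact hb.2.2
  refine Eq.trans (b := ((Finset.univ : Finset (ZMod p)).filter
    (fun a => a ≠ 0 ∧ IsSquare a)).card * 2) (congrArg (· * 2) (by convert h1)) ?_
  -- the quadratic character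
  have h2 := quadraticChar_sum_zero (F := ZMod p) hchar
  have h3 : ∀ a : ZMod p, (quadraticChar (ZMod p) a : ℤ) =
      (if a ≠ 0 ∧ IsSquare a then (1 : ℤ) else 0) - (if a ≠ 0 ∧ ¬ IsSquare a then (1 : ℤ) else 0) := by
    intro a
    by_cases h0 : a = 0
    · simp [h0]
    · by_cases hs : IsSquare a
      · rw [(quadraticChar_one_iff_isSquare h0).2 hs]
        simp [h0, hs]
      · have h5 : quadraticChar (ZMod p) a = -1 := by
          rcases quadraticChar_dichotomy h0 with h | h
          · exact absurd ((quadraticChar_one_iff_isSquare h0).1 h) hs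
          · exact h
        rw [h5]
        simp [h0, hs]
  simp_rw [h3] at h2
  rw [Finset.sum_sub_distrib, Finset.sum_boole, Finset.sum_boole, sub_eq_zero] at h2
  have h4 : ((Finset.univ : Finset (ZMod p)).filter (fun a => a ≠ 0 ∧ IsSquare a)).card +
      ((Finset.univ : Finset (ZMod p)).filter (fun a => a ≠ 0 ∧ ¬ IsSquare a)).card = p - 1 := by
    have h5 := Finset.card_filter_add_card_filter_not
      (s := (Finset.univ : Finset (ZMod p)).filter (fun a => a ≠ 0)) (fun a => IsSquare a)
    rw [Finset.filter_filter, Finset.filter_filter] at h5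
    rw [h5]
    have h6 : (Finset.univ : Finset (ZMod p)).filter (fun a => a ≠ 0) = Finset.univ.erase 0 := by
      ext a
      simp
    rw [h6, Finset.card_erase_of_mem (Finset.mem_univ _), Finset.card_univ, ZMod.card]
  have h7 : ((Finset.univ : Finset (ZMod p)).filter (fun a => a ≠ 0 ∧ IsSquare a)).card =
      ((Finset.univ : Finset (ZMod p)).filter (fun a => a ≠ 0 ∧ ¬ IsSquare a)).card := by
    exact_mod_cast h2
  omega

theorem cls_cast {q M a : ℕ} (h : q ∣ M) : ((a % M : ℕ) : ZMod q) = (a : ZMod q) := by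
  rw [ZMod.natCast_eq_natCast_iff]
  exact Nat.ModEq.of_dvd h (Nat.mod_modEq a M)

open Classical in
theorem card_classes (P : Finset ℕ) (hP : ∀ p ∈ P, p.Prime ∧ p ≠ 2) :
    ((Finset.range (∏ p ∈ P, p)).filter
      (fun a => ∀ p ∈ P, ¬ p ∣ a ∧ IsSquare (a : ZMod p))).card * 2 ^ P.card =
        (∏ p ∈ P, p).totient := by
  induction P using Finset.induction_on with
  | empty => simp
  | insert p P hp ih =>
    have hpp : p.Prime := (hP p (Finset.mem_insert_self _ _)).1
    have hp2 : p ≠ 2 := (hP p (Finset.mem_insert_self _ _)).2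
    have hP' : ∀ q ∈ P, q.Prime ∧ q ≠ 2 := fun q hq => hP q (Finset.mem_insert_of_mem hq)
    have ih' := ih hP'
    rw [Finset.prod_insert hp, Finset.card_insert_of_notMem hp]
    set M := ∏ q ∈ P, q with hM
    have hM0 : M ≠ 0 := Finset.prod_ne_zero_iff.2 fun q hq => (hP' q hq).1.ne_zero
    have hco : p.Coprime M := by
      rw [hM]
      refine Nat.Coprime.prod_right fun q hq => ?_
      exact (Nat.coprime_primes hpp (hP' q hq).1).2 (fun h => hp (h ▸ hq))
    have hdvd : ∀ q ∈ P, q ∣ M := fun q hq => Finset.dvd_prod_of_mem _ hq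
    rw [Nat.totient_mul hco, Nat.totient_prime hpp, ← ih', ← cls_one p hpp hp2]
    have key : ((Finset.range (p * M)).filter
        (fun a => ∀ q ∈ insert p P, ¬ q ∣ a ∧ IsSquare (a : ZMod q))).card =
        (((Finset.range p).filter (fun a : ℕ => ¬ p ∣ a ∧ IsSquare (a : ZMod p))) ×ˢ
        ((Finset.range M).filter
          (fun a : ℕ => ∀ q ∈ P, ¬ q ∣ a ∧ IsSquare (a : ZMod q)))).card := by
      refine Finset.card_bij (fun a _ => (a % p, a % M)) ?_ ?_ ?_
      · intro a ha
        rw [Finset.mem_filter] at ha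
        rw [Finset.mem_product, Finset.mem_filter, Finset.mem_filter, Finset.mem_range,
          Finset.mem_range]
        refine ⟨⟨Nat.mod_lt _ hpp.pos, ?_, ?_⟩, Nat.mod_lt _ (Nat.pos_of_ne_zero hM0), ?_⟩
        · rw [← ZMod.natCast_eq_zero_iff, cls_cast (dvd_refl p), ZMod.natCast_eq_zero_iff]
          exact (ha.2 p (Finset.mem_insert_self _ _)).1
        · rw [cls_cast (dvd_refl p)]
          exact (ha.2 p (Finset.mem_insert_self _ _)).2
        · intro q hq
          rw [← ZMod.natCast_eq_zero_iff, cls_cast (hdvd q hq), ZMod.natCast_eq_zero_iff]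
          exact ha.2 q (Finset.mem_insert_of_mem hq)
      · intro a ha b hb hab
        rw [Finset.mem_filter, Finset.mem_range] at ha hb
        rw [Prod.mk.injEq] at hab
        have h1 : a ≡ b [MOD p * M] :=
          (Nat.modEq_and_modEq_iff_modEq_mul hco).1 ⟨hab.1, hab.2⟩
        have h2 : a % (p * M) = b % (p * M) := h1
        rwa [Nat.mod_eq_of_lt ha.1, Nat.mod_eq_of_lt hb.1] at h2
      · rintro ⟨x, y⟩ hxy
        rw [Finset.mem_product, Finset.mem_filter, Finset.mem_filter, Finset.mem_range,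
          Finset.mem_range] at hxy
        obtain ⟨⟨hx, hx1, hx2⟩, hy, hy1⟩ := hxy
        obtain ⟨k, hk1, hk2⟩ := Nat.chineseRemainder hco x y
        have e1 : k % (p * M) % p = x := by
          rw [Nat.mod_mod_of_dvd _ (Dvd.intro _ rfl)]
          have : k % p = x % p := hk1
          rw [this, Nat.mod_eq_of_lt hx]
        have e2 : k % (p * M) % M = y := by
          rw [Nat.mod_mod_of_dvd _ (Dvd.intro_left _ rfl)]
          have : k % M = y % M := hk2
          rw [this, Nat.mod_eq_of_lt hy]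
        refine ⟨k % (p * M), ?_, ?_⟩
        · rw [Finset.mem_filter, Finset.mem_range]
          refine ⟨Nat.mod_lt _ (Nat.mul_pos hpp.pos (Nat.pos_of_ne_zero hM0)), ?_⟩
          intro q hq
          rcases Finset.mem_insert.1 hq with rfl | hq
          · rw [← ZMod.natCast_eq_zero_iff, ← cls_cast (dvd_refl q), e1,
              ZMod.natCast_eq_zero_iff]
            exact ⟨hx1, hx2⟩
          · rw [← ZMod.natCast_eq_zero_iff, ← cls_cast (hdvd q hq), e2,
              ZMod.natCast_eq_zero_iff]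
            exact hy1 q hq
        · rw [Prod.mk.injEq]
          exact ⟨e1, e2⟩
    rw [key, Finset.card_product]
    ring

open Classical in
theorem rough_sq (P : Finset ℕ) (z X : ℝ) (hz : 2 ≤ z) (hX : 0 ≤ X)
    (hP : ∀ p ∈ P, p.Prime ∧ p ≠ 2 ∧ (p : ℝ) ≤ z) :
    (((Finset.Icc 1 ⌊X⌋₊).filter
      (fun k => (∀ p ∈ P, IsSquare (k : ZMod p)) ∧ Rough z k)).card : ℝ) ≤
      (1 / 2) ^ P.card * (X / Real.log z) + (∏ p ∈ P, p : ℕ) * z ^ 6 := by
  have hP' : ∀ p ∈ P, p.Prime ∧ p ≠ 2 := fun p hp => ⟨(hP p hp).1, (hP p hp).2.1⟩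
  set q := ∏ p ∈ P, p with hq
  have hq0 : 0 < q := Nat.pos_of_ne_zero (Finset.prod_ne_zero_iff.2 fun p hp => (hP' p hp).1.ne_zero)
  have hdvd : ∀ p ∈ P, p ∣ q := fun p hp => Finset.dvd_prod_of_mem _ hp
  set T := (Finset.range q).filter (fun a => ∀ p ∈ P, ¬ p ∣ a ∧ IsSquare (a : ZMod p)) with hT
  have hcard : T.card * 2 ^ P.card = q.totient := card_classes P hP'
  have hlog : 0 < Real.log z := Real.log_pos (by linarith)
  -- each number lies in one of the classes
  have hsub : (Finset.Icc 1 ⌊X⌋₊).filter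
      (fun k => (∀ p ∈ P, IsSquare (k : ZMod p)) ∧ Rough z k) ⊆
      T.biUnion (fun a => (Finset.Icc 1 ⌊X⌋₊).filter (fun k => k ≡ a [MOD q] ∧ Rough z k)) := by
    intro k hk
    rw [Finset.mem_filter] at hk
    rw [Finset.mem_biUnion]
    refine ⟨k % q, ?_, ?_⟩
    · rw [hT, Finset.mem_filter, Finset.mem_range]
      refine ⟨Nat.mod_lt _ hq0, fun p hp => ⟨?_, ?_⟩⟩
      · rw [← ZMod.natCast_eq_zero_iff, cls_cast (hdvd p hp), ZMod.natCast_eq_zero_iff]
        intro hpk
        have h1 := hk.2.2 p (hP p hp).1 hpk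
        have h2 := (hP p hp).2.2
        linarith
      · rw [cls_cast (hdvd p hp)]
        exact hk.2.1 p hp
    · rw [Finset.mem_filter]
      exact ⟨hk.1, (Nat.mod_modEq k q).symm, hk.2.2⟩
  have h1 : (((Finset.Icc 1 ⌊X⌋₊).filter
      (fun k => (∀ p ∈ P, IsSquare (k : ZMod p)) ∧ Rough z k)).card : ℝ) ≤
      ∑ a ∈ T, (X / (q.totient * Real.log z) + z ^ 6) := by
    refine le_trans (b := ∑ a ∈ T,
      (((Finset.Icc 1 ⌊X⌋₊).filter (fun k => k ≡ a [MOD q] ∧ Rough z k)).card : ℝ)) ?_ ?_
    · exact_mod_cast (Finset.card_le_card hsub).trans Finset.card_biUnion_le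
    · refine Finset.sum_le_sum fun a ha => ?_
      rw [hT, Finset.mem_filter] at ha
      refine rough_ap q a hq0 ?_ z X hz hX
      rw [hq]
      refine Nat.Coprime.prod_right fun p hp => ?_
      exact (((hP' p hp).1.coprime_iff_not_dvd).2 (ha.2 p hp).1).symm
  refine h1.trans ?_
  rw [Finset.sum_const, nsmul_eq_mul, mul_add]
  have htot : (0 : ℝ) < q.totient := by exact_mod_cast Nat.totient_pos.2 hq0
  have hT1 : (T.card : ℝ) = (1 / 2) ^ P.card * q.totient := by
    have h2 : (T.card : ℝ) * 2 ^ P.card = q.totient := by exact_mod_cast hcard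
    rw [← h2, one_div, inv_pow]
    field_simp
  refine add_le_add ?_ ?_
  · rw [hT1]
    refine le_of_eq ?_
    field_simp
  · refine mul_le_mul_of_nonneg_right ?_ (by positivity)
    have h3 : T.card ≤ q := by
      calc T.card ≤ (Finset.range q).card := Finset.card_filter_le _ _
        _ = q := Finset.card_range q
    exact_mod_cast h3

end Pool.Agent.AAO
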