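import Pool.Agent.Lib_helper65.AAO.Defs

/-! # AAO, block DEC: smooth times rough decomposition -/

set_option autoImplicit false

namespace Pool.Agent.AAO

theorem DEC_one_smooth (z : ℝ) : Smooth z 1 := fun _ hp h => absurd (Nat.dvd_one.1 h) hp.one_lt.ne'

theorem DEC_one_rough (z : ℝ) : Rough z 1 := fun _ hp h => absurd (Nat.dvd_one.1 h) hp.one_lt.ne'

theorem exists_decomp (z : ℝ) (n : ℕ) (hn : n ≠ 0) : ∃ m k : ℕ, n = m * k ∧ Smooth z m ∧
    Rough z k := by
  induction n using Nat.strong_induction_on with
  | _ n ih =>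
    by_cases h1 : n = 1
    · exact ⟨1, 1, by rw [h1], DEC_one_smooth z, DEC_one_rough z⟩
    · obtain ⟨q, hq⟩ := Nat.minFac_dvd n
      have hp := Nat.minFac_prime h1
      set p := n.minFac with hpdef
      have hq0 : q ≠ 0 := by
        rintro rfl
        exact hn (by rw [hq, Nat.mul_zero])
      have hlt : q < n := by
        rw [hq]
        exact lt_mul_of_one_lt_left (Nat.pos_of_ne_zero hq0) hp.one_lt
      obtain ⟨m, k, e, hm, hk⟩ := ih q hlt hq0
      by_cases hz : (p : ℝ) ≤ z
      · refine ⟨p * m, k, ?_, ?_, hk⟩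
        · rw [hq, e, Nat.mul_assoc]
        · intro r hr hd
          rcases (hr.dvd_mul).1 hd with h | h
          · rw [(Nat.prime_dvd_prime_iff_eq hr hp).1 h]
            exact hz
          · exact hm r hr h
      · refine ⟨m, p * k, ?_, hm, ?_⟩
        · rw [hq, e]
          ring
        · intro r hr hd
          rcases (hr.dvd_mul).1 hd with h | h
          · rw [(Nat.prime_dvd_prime_iff_eq hr hp).1 h]
            exact not_le.1 hz
          · exact hk r hr h

theorem W_decomp (z : ℝ) (m k : ℕ) (hm : Smooth z m) (hk : Rough z k) (h : W (m * k)) :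
    W m ∧ ∀ p ∈ m.primeFactors, IsSquare (k : ZMod p) := by
  have hodd := h.1
  have hmk : m * k ≠ 0 := by
    intro h0
    rw [h0] at hodd
    exact absurd hodd (by decide)
  have hm0 : m ≠ 0 := left_ne_zero_of_mul hmk
  have hk0 : k ≠ 0 := right_ne_zero_of_mul hmk
  have hfac : ∀ r, (m * k).factorization r = m.factorization r + k.factorization r := fun r => by
    rw [Nat.factorization_mul hm0 hk0]
    rfl
  refine ⟨⟨(Nat.odd_mul.1 hodd).1, ?_⟩, ?_⟩
  · intro p r hp hr hpm hrp ho
    refine h.2 p r hp hr (Dvd.dvd.mul_right hpm k) hrp ?_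
    have hrm : r ∣ m := by
      by_contra hc
      rw [Nat.factorization_eq_zero_of_not_dvd hc] at ho
      exact absurd ho (by decide)
    have hrk : ¬ r ∣ k := fun hc => absurd (hm r hr hrm) (not_le.2 (hk r hr hc))
    rw [hfac, Nat.factorization_eq_zero_of_not_dvd hrk, Nat.add_zero]
    exact ho
  · intro p hp
    rw [Nat.mem_primeFactors] at hp
    obtain ⟨hpp, hpm, _⟩ := hp
    have e : (k : ZMod p) = ∏ r ∈ k.primeFactors, (r : ZMod p) ^ k.factorization r := by
      conv_lhs => rw [← Nat.prod_factorization_pow_eq_self hk0]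
      rw [Finsupp.prod, Nat.support_factorization]
      push_cast
      rfl
    rw [e]
    have : ∀ s : Finset ℕ, (∀ r ∈ s, r.Prime ∧ r ∣ k) →
        IsSquare (∏ r ∈ s, (r : ZMod p) ^ k.factorization r) := by
      intro s
      induction s using Finset.induction_on with
      | empty => intro _; rw [Finset.prod_empty]; exact IsSquare.one
      | insert r s hrs ih =>
        intro hs
        rw [Finset.prod_insert hrs]
        refine IsSquare.mul ?_ (ih fun r' hr' => hs r' (Finset.mem_insert_of_mem hr'))
        obtain ⟨hr, hrk⟩ := hs r (Finset.mem_insert_self r s)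
        have hrm : ¬ r ∣ m := fun hc => absurd (hm r hr hc) (not_le.2 (hk r hr hrk))
        rcases Nat.even_or_odd (k.factorization r) with he | ho
        · exact he.isSquare_pow _
        · have hsq : IsSquare (r : ZMod p) := by
            refine h.2 p r hpp hr (Dvd.dvd.mul_right hpm k) ?_ ?_
            · rintro rfl
              exact hrm hpm
            · rw [hfac, Nat.factorization_eq_zero_of_not_dvd hrm, Nat.zero_add]
              exact ho
          exact hsq.pow _
    exact this _ fun r hr => by
      rw [Nat.mem_primeFactors] at hr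
      exact ⟨hr.1, hr.2.1⟩

theorem wt_decomp (z : ℝ) (j m k : ℕ) (_hm : Smooth z m) (_hk : Rough z k) (hmk : m * k ≠ 0) :
    wt j (m * k) ≤ wt j m := by
  unfold wt
  have h : m.primeFactors.card ≤ (m * k).primeFactors.card :=
    Finset.card_le_card (Nat.primeFactors_mono (Nat.dvd_mul_right m k) hmk)
  exact pow_le_pow_of_le_one (by norm_num) (by norm_num) (Nat.mul_le_mul_left j h)

example : type_of% @exists_decomp := @exists_decomp
example : type_of% @W_decomp := @W_decomp
example : type_of% @wt_decomp := @wt_decomp

end Pool.Agent.AAO
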