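import Pool.Agent.Lib_helper65.AAOF.STP
import Pool.Agent.Lib_helper65.AAOF.BAS

/-! # AAO, block ITR: the iteration -/

namespace Pool.Agent.AAO

theorem ITR_wt_nonneg (j n : ℕ) : 0 ≤ wt j n := by
  unfold wt
  positivity

theorem ITR_W_one : W 1 := by
  refine ⟨odd_one, fun p r hp _ h1 _ _ => ?_⟩
  exact absurd (Nat.dvd_one.1 h1) hp.one_lt.ne'

open Classical in
theorem ITR_one_le (j I : ℕ) : 1 ≤ A j I := by
  unfold A
  have h1 : wt j 1 / (1 : ℕ) ≤ ∑ n ∈ (Finset.Icc 1 (2 ^ I)).filter W, wt j n / n :=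
    Finset.single_le_sum (f := fun n : ℕ => wt j n / n)
      (fun n _ => div_nonneg (ITR_wt_nonneg _ _) (Nat.cast_nonneg _))
      (by
        rw [Finset.mem_filter, Finset.mem_Icc]
        exact ⟨⟨le_rfl, Nat.one_le_two_pow⟩, ITR_W_one⟩)
  have h2 : wt j 1 / (1 : ℕ) = 1 := by simp [wt]
  rwa [h2] at h1

open Classical in
theorem ITR_mono (j : ℕ) {I I' : ℕ} (h : I ≤ I') : A j I ≤ A j I' := by
  unfold A
  refine Finset.sum_le_sum_of_subset_of_nonneg ?_
    (fun n _ _ => div_nonneg (ITR_wt_nonneg _ _) (Nat.cast_nonneg _))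
  refine Finset.filter_subset_filter _ (Finset.Icc_subset_Icc le_rfl ?_)
  exact Nat.pow_le_pow_right (by norm_num) h

open Classical in
/-- dyadic decomposition -/
theorem ITR_split (j I : ℕ) : A j I ≤ 1 + ∑ i ∈ Finset.range I, (1 / 2) ^ i * S j (i + 1) := by
  induction I with
  | zero =>
    unfold A
    rw [Finset.range_zero, Finset.sum_empty, add_zero, pow_zero, Finset.Icc_self,
      Finset.filter_singleton, if_pos ITR_W_one, Finset.sum_singleton]
    simp [wt]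
  | succ I ih =>
    rw [Finset.sum_range_succ, ← add_assoc]
    have h1 : A j (I + 1) ≤ A j I + (1 / 2) ^ I * S j (I + 1) := by
      unfold A S
      rw [Finset.mul_sum]
      have hsub : (Finset.Icc 1 (2 ^ I)).filter W ⊆ (Finset.Icc 1 (2 ^ (I + 1))).filter W :=
        Finset.filter_subset_filter _ (Finset.Icc_subset_Icc le_rfl
          (Nat.pow_le_pow_right (by norm_num) (Nat.le_succ I)))
      rw [← Finset.sum_sdiff hsub, add_comm]
      refine add_le_add le_rfl ?_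
      calc ∑ n ∈ (Finset.Icc 1 (2 ^ (I + 1))).filter W \ (Finset.Icc 1 (2 ^ I)).filter W,
            wt j n / n
          ≤ ∑ n ∈ (Finset.Icc 1 (2 ^ (I + 1))).filter W \ (Finset.Icc 1 (2 ^ I)).filter W,
            (1 / 2) ^ I * wt j n := by
            refine Finset.sum_le_sum fun n hn => ?_
            simp only [Finset.mem_sdiff, Finset.mem_filter, Finset.mem_Icc, not_and] at hn
            have hn2 : 2 ^ I < n := by
              by_contra hle
              exact hn.2 ⟨hn.1.1.1, not_lt.1 hle⟩ hn.1.2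
            have hn3 : (2 : ℝ) ^ I ≤ n := by exact_mod_cast hn2.le
            rw [div_eq_mul_inv, mul_comm, one_div, inv_pow]
            exact mul_le_mul_of_nonneg_right (inv_anti₀ (by positivity) hn3) (ITR_wt_nonneg _ _)
        _ ≤ ∑ n ∈ (Finset.Icc 1 (2 ^ (I + 1))).filter W, (1 / 2) ^ I * wt j n :=
            Finset.sum_le_sum_of_subset_of_nonneg Finset.sdiff_subset
              (fun n _ _ => mul_nonneg (by positivity) (ITR_wt_nonneg _ _))
    linarith

theorem ITR_log_one {I : ℕ} (hI : 1 ≤ I) : 1 ≤ Real.log ((I : ℝ) + 2) := by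
  have h3 : (3 : ℝ) ≤ (I : ℝ) + 2 := by
    have : (1 : ℝ) ≤ I := by exact_mod_cast hI
    linarith
  rw [Real.le_log_iff_exp_le (by linarith)]
  have := Real.exp_one_lt_d9
  linarith

/-- the harmonic sum -/
theorem ITR_harm (I : ℕ) (hI : 1 ≤ I) :
    ∑ i ∈ Finset.range I, (1 : ℝ) / ((i : ℝ) + 1) ≤ 2 * Real.log ((I : ℝ) + 2) := by
  have h1 := harmonic_le_one_add_log I
  have h2 : ((harmonic I : ℚ) : ℝ) = ∑ i ∈ Finset.range I, (1 : ℝ) / ((i : ℝ) + 1) := by
    unfold harmonic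
    push_cast
    exact Finset.sum_congr rfl fun i _ => by rw [one_div]
  rw [h2] at h1
  have h3 : Real.log (I : ℝ) ≤ Real.log ((I : ℝ) + 2) := by
    have : (1 : ℝ) ≤ I := by exact_mod_cast hI
    exact Real.log_le_log (by linarith) (by linarith)
  have := ITR_log_one hI
  linarith

theorem recA : ∃ C : ℝ, 0 < C ∧ ∀ j I : ℕ, 1 ≤ I →
    A j I ≤ C * Real.log (I + 2) ^ 2 * A (j + 1) I := by
  obtain ⟨C, hC, hstep⟩ := step
  refine ⟨1 + 4 * C, by positivity, fun j I hI => ?_⟩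
  have hL := ITR_log_one hI
  have hA := ITR_one_le (j + 1) I
  set L := Real.log ((I : ℝ) + 2) with hLdef
  have h1 : ∑ i ∈ Finset.range I, (1 / 2 : ℝ) ^ i * S j (i + 1) ≤
      ∑ i ∈ Finset.range I, 2 * C * L * A (j + 1) I * (1 / ((i : ℝ) + 1)) := by
    refine Finset.sum_le_sum fun i hi => ?_
    have hi' : i + 1 ≤ I := Finset.mem_range.1 hi
    have h2 := hstep j (i + 1) (Nat.le_add_left 1 i)
    have hlog : Real.log (((i + 1 : ℕ) : ℝ) + 2) ≤ L := by
      have : ((i + 1 : ℕ) : ℝ) ≤ I := by exact_mod_cast hi'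
      exact Real.log_le_log (by positivity) (by linarith)
    have hlog0 : 0 ≤ Real.log (((i + 1 : ℕ) : ℝ) + 2) := Real.log_nonneg (by
      have : (0 : ℝ) ≤ ((i + 1 : ℕ) : ℝ) := Nat.cast_nonneg _
      linarith)
    have hmono := ITR_mono (j + 1) hi'
    have hA0 : 0 ≤ A (j + 1) (i + 1) := zero_le_one.trans (ITR_one_le _ _)
    calc (1 / 2 : ℝ) ^ i * S j (i + 1)
        ≤ (1 / 2) ^ i * (C * 2 ^ (i + 1) * (Real.log (((i + 1 : ℕ) : ℝ) + 2) / ((i + 1 : ℕ) : ℝ)) *
            A (j + 1) (i + 1)) := by gcongr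
      _ = ((1 / 2 : ℝ) ^ i * 2 ^ i) * (2 * C * Real.log (((i + 1 : ℕ) : ℝ) + 2) *
            A (j + 1) (i + 1) * (1 / ((i + 1 : ℕ) : ℝ))) := by
          rw [pow_succ]
          ring
      _ = 2 * C * Real.log (((i + 1 : ℕ) : ℝ) + 2) * A (j + 1) (i + 1) *
            (1 / ((i + 1 : ℕ) : ℝ)) := by
          rw [← mul_pow]
          norm_num
      _ ≤ 2 * C * L * A (j + 1) I * (1 / ((i + 1 : ℕ) : ℝ)) := by gcongr
      _ = _ := by push_cast; rfl
  have h3 : ∑ i ∈ Finset.range I, 2 * C * L * A (j + 1) I * (1 / ((i : ℝ) + 1)) ≤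
      2 * C * L * A (j + 1) I * (2 * L) := by
    rw [← Finset.mul_sum]
    exact mul_le_mul_of_nonneg_left (ITR_harm I hI) (by positivity)
  have h4 := ITR_split j I
  have h5 : (1 : ℝ) ≤ L ^ 2 * A (j + 1) I := by
    have : (1 : ℝ) ≤ L ^ 2 := one_le_pow₀ hL
    nlinarith
  calc A j I ≤ 1 + ∑ i ∈ Finset.range I, (1 / 2 : ℝ) ^ i * S j (i + 1) := h4
    _ ≤ L ^ 2 * A (j + 1) I + 2 * C * L * A (j + 1) I * (2 * L) :=
        add_le_add h5 (h1.trans h3)
    _ = _ := by ring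

theorem total : ∃ C : ℝ, 0 < C ∧ ∀ I : ℕ, 1 ≤ I →
    S 0 I ≤ 2 ^ I / I * Real.exp (C * (1 + Real.log (Real.log (I + 2)) ^ 2)) := by
  obtain ⟨C₁, hC₁, hstep⟩ := step
  obtain ⟨C₂, hC₂, hrec⟩ := recA
  obtain ⟨C₃, hC₃, hbase⟩ := base
  -- the logarithms of the constants
  set c₁ := max (Real.log C₁) 0 with hc₁
  set c₂ := max (Real.log C₂) 0 with hc₂
  have hc₁0 : 0 ≤ c₁ := le_max_right _ _
  have hc₂0 : 0 ≤ c₂ := le_max_right _ _
  have he₁ : C₁ ≤ Real.exp c₁ := by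
    rw [← Real.log_le_iff_le_exp hC₁]; exact le_max_left _ _
  have he₂ : C₂ ≤ Real.exp c₂ := by
    rw [← Real.log_le_iff_le_exp hC₂]; exact le_max_left _ _
  refine ⟨c₁ + 3 * c₂ + C₃ + 10, by positivity, fun I hI => ?_⟩
  have hL := ITR_log_one hI
  have hI0 : (0 : ℝ) < I := by exact_mod_cast hI
  set L := Real.log ((I : ℝ) + 2) with hLdef
  have hL0 : 0 < L := by linarith
  set l := Real.log L with hldef
  have hl0 : 0 ≤ l := Real.log_nonneg hL
  have hLe : L = Real.exp l := (Real.exp_log hL0).symm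
  -- the iteration
  have hiter : ∀ J : ℕ, A 1 I ≤ (C₂ * L ^ 2) ^ J * A (J + 1) I := by
    intro J
    induction J with
    | zero => simp
    | succ J ih =>
      refine ih.trans ?_
      have h1 := hrec (J + 1) I hI
      rw [pow_succ (C₂ * L ^ 2) J, mul_assoc]
      exact mul_le_mul_of_nonneg_left h1 (by positivity)
  set J := ⌈l / Real.log 2⌉₊ with hJ
  have hlog2 : (0 : ℝ) < Real.log 2 := Real.log_pos (by norm_num)
  have hlog2' : (1 / 2 : ℝ) ≤ Real.log 2 := by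
    have := Real.log_two_gt_d9
    linarith
  have hJ1 : l ≤ J * Real.log 2 := by
    have := Nat.le_ceil (l / Real.log 2)
    rw [div_le_iff₀ hlog2] at this
    exact this
  have hJ2 : (J : ℝ) ≤ 2 * l + 1 := by
    have h1 := (Nat.ceil_lt_add_one (div_nonneg hl0 hlog2.le)).le
    have h2 : l / Real.log 2 ≤ 2 * l := by
      rw [div_le_iff₀ hlog2]
      nlinarith
    linarith
  have hJ3 : L ≤ 2 ^ J := by
    rw [hLe, ← Real.rpow_natCast, Real.rpow_def_of_pos (by norm_num), Real.exp_le_exp]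
    linarith
  have hb : A (J + 1) I ≤ Real.exp C₃ := by
    refine (hbase (J + 1) I hI).trans ?_
    rw [Real.exp_le_exp]
    have h1 : (1 / 2 : ℝ) ^ (J + 1) * L ≤ 1 / 2 := by
      rw [pow_succ, one_div, inv_pow]
      have : ((2 : ℝ) ^ J)⁻¹ * L ≤ 1 := by
        rw [inv_mul_le_iff₀ (by positivity), mul_one]
        exact hJ3
      linarith
    have h2 : (1 / 2 : ℝ) ^ (J + 1) ≤ 1 / 2 := by
      rw [pow_succ]
      have : (1 / 2 : ℝ) ^ J ≤ 1 := pow_le_one₀ (by norm_num) (by norm_num)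
      linarith
    nlinarith
  have hpow : (C₂ * L ^ 2) ^ J ≤ Real.exp ((2 * l + 1) * (c₂ + 2 * l)) := by
    have h1 : C₂ * L ^ 2 ≤ Real.exp (c₂ + 2 * l) := by
      rw [Real.exp_add]
      have : L ^ 2 = Real.exp (2 * l) := by
        rw [hLe, ← Real.exp_nat_mul]
        norm_num
      rw [this]
      exact mul_le_mul_of_nonneg_right he₂ (Real.exp_pos _).le
    calc (C₂ * L ^ 2) ^ J ≤ Real.exp (c₂ + 2 * l) ^ J := pow_le_pow_left₀ (by positivity) h1 J
      _ = Real.exp (J * (c₂ + 2 * l)) := (Real.exp_nat_mul _ _).symm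
      _ ≤ _ := by
        rw [Real.exp_le_exp]
        exact mul_le_mul_of_nonneg_right hJ2 (by positivity)
  have hA1 : A 1 I ≤ Real.exp ((2 * l + 1) * (c₂ + 2 * l)) * Real.exp C₃ :=
    (hiter J).trans (mul_le_mul hpow hb (zero_le_one.trans (ITR_one_le _ _)) (Real.exp_pos _).le)
  have h0 := hstep 0 I hI
  calc S 0 I ≤ C₁ * 2 ^ I * (L / I) * A (0 + 1) I := h0
    _ = 2 ^ I / I * (C₁ * L * A 1 I) := by
        rw [zero_add]
        ring
    _ ≤ 2 ^ I / I * (Real.exp c₁ * Real.exp l *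
          (Real.exp ((2 * l + 1) * (c₂ + 2 * l)) * Real.exp C₃)) := by
        have hA0 : 0 ≤ A 1 I := zero_le_one.trans (ITR_one_le _ _)
        rw [← hLe]
        gcongr
    _ = 2 ^ I / I * Real.exp (c₁ + l + ((2 * l + 1) * (c₂ + 2 * l) + C₃)) := by
        rw [← Real.exp_add, ← Real.exp_add, ← Real.exp_add]
    _ ≤ _ := by
        have : c₁ + l + ((2 * l + 1) * (c₂ + 2 * l) + C₃) ≤
            (c₁ + 3 * c₂ + C₃ + 10) * (1 + l ^ 2) := by
          nlinarith [mul_nonneg hc₁0 (sq_nonneg l), mul_nonneg hc₂0 (sq_nonneg (l - 1)),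
            mul_nonneg hC₃.le (sq_nonneg l), sq_nonneg (l - 1), mul_nonneg hc₂0 (sq_nonneg l),
            sq_nonneg l, mul_nonneg hc₂0 hl0]
        gcongr

end Pool.Agent.AAO
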