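import Pool.Agent.Lib_helper65.AAOF.LOC
import Pool.Agent.Lib_helper65.AAOF.ITR

set_option autoImplicit false

namespace Pool.Agent.AAO

open Classical in
theorem FIN_count (I : ℕ) :
    (Set.ncard {v : ℕ | v ≤ 2 ^ I ∧ PlanarOrder v} : ℝ) ≤ S 0 I := by
  have h1 : S 0 I = (((Finset.Icc 1 (2 ^ I)).filter W).card : ℝ) := by
    unfold S wt
    simp
  rw [h1]
  have h2 : {v : ℕ | v ≤ 2 ^ I ∧ PlanarOrder v} ⊆ (((Finset.Icc 1 (2 ^ I)).filter W : Finset ℕ) :
      Set ℕ) := by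
    intro v hv
    obtain ⟨hv1, hv2⟩ := hv
    rw [Finset.coe_filter]
    refine ⟨Finset.mem_Icc.2 ⟨?_, hv1⟩, planarOrder_W v hv2⟩
    obtain ⟨G, N, iG, iN, fG, fN, h3, -⟩ := hv2
    rw [← h3]
    exact Nat.card_pos
  have h3 := Set.ncard_le_ncard h2 (Finset.finite_toSet _)
  rw [Set.ncard_coe_finset] at h3
  exact_mod_cast h3

theorem FIN_logs (x : ℝ) (hx : 16 ≤ x) (I : ℕ) (hI1 : 1 ≤ I) (hI : (2 : ℝ) ^ (I - 1) < x)
    (hI2 : 4 ≤ I) :
    0 ≤ Real.log (Real.log ((I : ℝ) + 2)) ∧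
      Real.log (Real.log ((I : ℝ) + 2)) ≤ 2 + Real.log (Real.log (Real.log x)) ∧
      0 < Real.log (Real.log (Real.log 16)) ∧
      Real.log (Real.log (Real.log 16)) ≤ Real.log (Real.log (Real.log x)) := by
  have l2a := Real.log_two_gt_d9
  have l2b := Real.log_two_lt_d9
  have h16 : Real.log 16 = 4 * Real.log 2 := by
    rw [show (16 : ℝ) = 2 ^ 4 by norm_num, Real.log_pow]
    norm_num
  have hy : Real.log 16 ≤ Real.log x := Real.log_le_log (by norm_num) hx
  have hy1 : (2.77 : ℝ) < Real.log 16 := by rw [h16]; linarith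
  have he : Real.exp 1 < 2.7182818286 := Real.exp_one_lt_d9
  have hly : 1 < Real.log (Real.log 16) := by
    rw [Real.lt_log_iff_exp_lt (by linarith)]
    linarith
  have hly2 : Real.log (Real.log 16) ≤ Real.log (Real.log x) :=
    Real.log_le_log (by linarith) hy
  have hI4 : (4 : ℝ) ≤ I := by exact_mod_cast hI2
  have hIx : ((I : ℝ) - 1) * Real.log 2 < Real.log x := by
    have h1 := Real.log_lt_log (by positivity) hI
    rw [Real.log_pow] at h1
    have h2 : ((I - 1 : ℕ) : ℝ) = (I : ℝ) - 1 := by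
      rw [Nat.cast_sub hI1]
      norm_num
    rwa [h2] at h1
  have hI3 : (I : ℝ) + 2 ≤ 3 * Real.log x := by nlinarith
  have hL1 : 1 < Real.log ((I : ℝ) + 2) := by
    rw [Real.lt_log_iff_exp_lt (by linarith)]
    linarith
  have h3 : Real.log ((I : ℝ) + 2) ≤ Real.log 3 + Real.log (Real.log x) := by
    rw [← Real.log_mul (by norm_num) (by linarith)]
    exact Real.log_le_log (by linarith) hI3
  have hl3 : Real.log 3 < 2 * Real.log 2 := by
    have : Real.log 3 < Real.log (2 ^ 2) := Real.log_lt_log (by norm_num) (by norm_num)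
    rwa [Real.log_pow] at this
  have h4 : Real.log ((I : ℝ) + 2) ≤ 4 * Real.log (Real.log x) := by linarith
  have h5 : Real.log (Real.log ((I : ℝ) + 2)) ≤ Real.log 4 + Real.log (Real.log (Real.log x)) := by
    rw [← Real.log_mul (by norm_num) (by linarith)]
    exact Real.log_le_log (by linarith) h4
  have hl4 : Real.log 4 = 2 * Real.log 2 := by
    rw [show (4 : ℝ) = 2 ^ 2 by norm_num, Real.log_pow]
    norm_num
  refine ⟨Real.log_nonneg hL1.le, by linarith, Real.log_pos hly,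
    Real.log_le_log (by linarith) hly2⟩

theorem final : ∃ C : ℝ, ∀ x : ℝ, 16 ≤ x →
    (Set.ncard {v : ℕ | (v : ℝ) ≤ x ∧ PlanarOrder v} : ℝ) ≤
      x / Real.log x * Real.exp (C * Real.log (Real.log (Real.log x)) ^ 2) := by
  obtain ⟨C, hC, h⟩ := total
  set l := Real.log (Real.log (Real.log 16)) with hl
  refine ⟨(Real.log 8 + 5 * C) / l ^ 2 + 4 * C / l + C, fun x hx => ?_⟩
  have l2a := Real.log_two_gt_d9
  have l2b := Real.log_two_lt_d9
  set n := ⌊x⌋₊ with hn
  have hn16 : 16 ≤ n := Nat.le_floor (by exact_mod_cast hx)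
  have hnx : (n : ℝ) ≤ x := Nat.floor_le (by linarith)
  have hxn : x < n + 1 := Nat.lt_floor_add_one x
  set I := Nat.clog 2 n with hI
  have h1 : n ≤ 2 ^ I := Nat.le_pow_clog (by norm_num) n
  have h2 : 2 ^ (I - 1) < n := by
    have := Nat.pow_pred_clog_lt_self (b := 2) (by norm_num) (x := n) (by omega)
    exact this
  have hI4 : 4 ≤ I := by
    by_contra hcon
    have h3 : 2 ^ I ≤ 2 ^ 3 := Nat.pow_le_pow_right (by norm_num) (by omega)
    omega
  have hI0 : (0 : ℝ) < I := by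
    have : 0 < I := by omega
    exact_mod_cast this
  have h2x : (2 : ℝ) ^ (I - 1) < x := by
    have : ((2 ^ (I - 1) : ℕ) : ℝ) < n := by exact_mod_cast h2
    push_cast at this
    linarith
  obtain ⟨a1, a2, a3, a4⟩ := FIN_logs x hx I (by omega) h2x hI4
  rw [← hl] at a3 a4
  set t := Real.log (Real.log (Real.log x)) with ht
  have hlx : 0 < Real.log x := Real.log_pos (by linarith)
  -- the count
  have hc : (Set.ncard {v : ℕ | (v : ℝ) ≤ x ∧ PlanarOrder v} : ℝ) ≤ S 0 I := by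
    refine le_trans ?_ (FIN_count I)
    have hsub : {v : ℕ | (v : ℝ) ≤ x ∧ PlanarOrder v} ⊆ {v : ℕ | v ≤ 2 ^ I ∧ PlanarOrder v} := by
      intro v hv
      exact ⟨(Nat.le_floor hv.1).trans h1, hv.2⟩
    have hfin : {v : ℕ | v ≤ 2 ^ I ∧ PlanarOrder v}.Finite :=
      (Set.finite_Iic (2 ^ I)).subset fun v hv => hv.1
    exact_mod_cast Set.ncard_le_ncard hsub hfin
  have hpow : (2 : ℝ) ^ I ≤ 2 * x := by
    have : (2 : ℝ) ^ I = 2 * 2 ^ (I - 1) := by
      rw [← pow_succ']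
      congr 1
      omega
    rw [this]
    linarith
  have hlog : Real.log x ≤ 2 * I := by
    have h3 : x ≤ 2 ^ (I + 1) := by
      have h4 : ((n : ℝ)) ≤ 2 ^ I := by exact_mod_cast h1
      have h5 : (1 : ℝ) ≤ 2 ^ I := one_le_pow₀ (by norm_num)
      rw [pow_succ]
      linarith
    have h4 := Real.log_le_log (by linarith) h3
    rw [Real.log_pow] at h4
    push_cast at h4
    have h5 : (4 : ℝ) ≤ I := by exact_mod_cast hI4
    nlinarith
  have hmain : (2 : ℝ) ^ I / I ≤ 4 * (x / Real.log x) := by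
    rw [div_le_iff₀ hI0]
    have h3 : 4 * (x / Real.log x) * I = (2 * x) * ((2 * I) / Real.log x) := by
      field_simp
      ring
    rw [h3]
    have h4 : 1 ≤ (2 * I) / Real.log x := by
      rw [le_div_iff₀ hlx]
      linarith
    have h5 : 0 ≤ 2 * x := by linarith
    nlinarith
  have hexp : 4 * Real.exp (C * (1 + Real.log (Real.log ((I : ℝ) + 2)) ^ 2)) ≤
      Real.exp (((Real.log 8 + 5 * C) / l ^ 2 + 4 * C / l + C) * t ^ 2) := by
    have h3 : (4 : ℝ) ≤ Real.exp (Real.log 8) := by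
      rw [Real.exp_log (by norm_num)]
      norm_num
    refine (mul_le_mul_of_nonneg_right h3 (Real.exp_pos _).le).trans ?_
    rw [← Real.exp_add]
    refine Real.exp_le_exp.2 ?_
    have hl8 : 0 < Real.log 8 := Real.log_pos (by norm_num)
    have hsq : Real.log (Real.log ((I : ℝ) + 2)) ^ 2 ≤ (2 + t) ^ 2 :=
      pow_le_pow_left₀ a1 a2 2
    have b1 : 1 ≤ t ^ 2 / l ^ 2 := by
      rw [le_div_iff₀ (by positivity), one_mul]
      exact pow_le_pow_left₀ a3.le a4 2
    have b2 : t ≤ t ^ 2 / l := by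
      rw [le_div_iff₀ a3]
      nlinarith
    have b3 : ((Real.log 8 + 5 * C) / l ^ 2 + 4 * C / l + C) * t ^ 2 =
        (Real.log 8 + 5 * C) * (t ^ 2 / l ^ 2) + 4 * C * (t ^ 2 / l) + C * t ^ 2 := by
      ring
    rw [b3]
    have b4 : (Real.log 8 + 5 * C) * 1 ≤ (Real.log 8 + 5 * C) * (t ^ 2 / l ^ 2) :=
      mul_le_mul_of_nonneg_left b1 (by positivity)
    have b5 : 4 * C * t ≤ 4 * C * (t ^ 2 / l) := mul_le_mul_of_nonneg_left b2 (by positivity)
    have b6 : C * (1 + Real.log (Real.log ((I : ℝ) + 2)) ^ 2) ≤ C * (1 + (2 + t) ^ 2) := by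
      refine mul_le_mul_of_nonneg_left ?_ hC.le
      linarith
    nlinarith
  have hq : 0 ≤ x / Real.log x := by positivity
  calc _ ≤ S 0 I := hc
    _ ≤ 2 ^ I / I * Real.exp (C * (1 + Real.log (Real.log ((I : ℝ) + 2)) ^ 2)) := h I (by omega)
    _ ≤ 4 * (x / Real.log x) * Real.exp (C * (1 + Real.log (Real.log ((I : ℝ) + 2)) ^ 2)) :=
      mul_le_mul_of_nonneg_right hmain (Real.exp_pos _).le
    _ = x / Real.log x * (4 * Real.exp (C * (1 + Real.log (Real.log ((I : ℝ) + 2)) ^ 2))) := by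
      ring
    _ ≤ _ := mul_le_mul_of_nonneg_left hexp hq


end Pool.Agent.AAO
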