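import Pool.Agent.Lib_helper65.AAO.Defs

set_option autoImplicit false

namespace Pool.Agent.AAO

theorem MER_card (i : ℕ) (hi : 1 ≤ i) :
    i * ((Finset.Ico (2 ^ i) (2 ^ (i + 1))).filter Nat.Prime).card ≤ 2 ^ (i + 2) := by
  set S := (Finset.Ico (2 ^ i) (2 ^ (i + 1))).filter Nat.Prime with hS
  have h1 : (2 ^ i) ^ S.card ≤ ∏ p ∈ S, p := by
    refine Finset.pow_card_le_prod _ _ _ fun p hp => ?_
    rw [hS, Finset.mem_filter, Finset.mem_Ico] at hp
    exact hp.1.1
  have h2 : ∏ p ∈ S, p ≤ primorial (2 ^ (i + 1)) := by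
    unfold primorial
    refine Finset.prod_le_prod_of_subset_of_one_le' ?_ ?_
    · intro p hp
      rw [hS, Finset.mem_filter, Finset.mem_Ico] at hp
      rw [Finset.mem_filter, Finset.mem_range]
      exact ⟨by omega, hp.2⟩
    · intro p hp _
      rw [Finset.mem_filter] at hp
      exact hp.2.one_lt.le
  have h3 := primorial_le_four_pow (2 ^ (i + 1))
  have h4 : (2 : ℕ) ^ (i * S.card) ≤ 2 ^ (2 ^ (i + 2)) := by
    calc (2 : ℕ) ^ (i * S.card) = (2 ^ i) ^ S.card := by rw [pow_mul]
      _ ≤ primorial (2 ^ (i + 1)) := h1.trans h2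
      _ ≤ 4 ^ 2 ^ (i + 1) := h3
      _ = 2 ^ (2 ^ (i + 2)) := by
        rw [show (4 : ℕ) = 2 ^ 2 by norm_num, ← pow_mul]
        congr 1
        ring
  exact (Nat.pow_le_pow_iff_right (by norm_num)).1 h4

theorem mer : ∃ C : ℝ, 0 < C ∧ ∀ x : ℝ, 1 ≤ x →
    ∑ p ∈ (Finset.Icc 1 ⌊x⌋₊).filter Nat.Prime, (1 : ℝ) / p ≤
      C + C * Real.log (1 + Real.log x) := by
  refine ⟨8, by norm_num, fun x hx => ?_⟩
  have hlx : 0 ≤ Real.log x := Real.log_nonneg hx
  set n := ⌊x⌋₊ with hn
  have hnx : (n : ℝ) ≤ x := Nat.floor_le (by linarith)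
  have hn1 : 1 ≤ n := by
    rw [hn]
    exact Nat.le_floor (by exact_mod_cast hx)
  set L := Nat.log 2 n with hL
  have hmaps : ∀ p ∈ (Finset.Icc 1 n).filter Nat.Prime, Nat.log 2 p ∈ Finset.Icc 1 L := by
    intro p hp
    rw [Finset.mem_filter, Finset.mem_Icc] at hp
    rw [Finset.mem_Icc]
    exact ⟨Nat.log_pos (by norm_num) hp.2.two_le, Nat.log_mono_right hp.1.2⟩
  rw [← Finset.sum_fiberwise_of_maps_to hmaps]
  have h1 : ∀ i ∈ Finset.Icc 1 L,
      ∑ p ∈ ((Finset.Icc 1 n).filter Nat.Prime).filter (fun p => Nat.log 2 p = i), (1 : ℝ) / p ≤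
        4 * ((i : ℝ))⁻¹ := by
    intro i hi
    rw [Finset.mem_Icc] at hi
    have hi0 : (0 : ℝ) < i := by exact_mod_cast hi.1
    have h2i : (0 : ℝ) < 2 ^ i := by positivity
    calc ∑ p ∈ ((Finset.Icc 1 n).filter Nat.Prime).filter (fun p => Nat.log 2 p = i), (1 : ℝ) / p
        ≤ ∑ p ∈ (Finset.Ico (2 ^ i) (2 ^ (i + 1))).filter Nat.Prime, (1 : ℝ) / 2 ^ i := by
          refine (Finset.sum_le_sum (g := fun _ => (1 : ℝ) / 2 ^ i) fun p hp => ?_).trans
            (Finset.sum_le_sum_of_subset_of_nonneg ?_ fun _ _ _ => by positivity)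
          · rw [Finset.mem_filter, Finset.mem_filter, Finset.mem_Icc] at hp
            have h5 : 2 ^ i ≤ p := by
              rw [← hp.2]
              exact Nat.pow_log_le_self 2 (by omega)
            have h6 : (2 : ℝ) ^ i ≤ p := by exact_mod_cast h5
            exact one_div_le_one_div_of_le h2i h6
          · intro p hp
            rw [Finset.mem_filter, Finset.mem_filter, Finset.mem_Icc] at hp
            rw [Finset.mem_filter, Finset.mem_Ico]
            refine ⟨⟨?_, ?_⟩, hp.1.2⟩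
            · rw [← hp.2]
              exact Nat.pow_log_le_self 2 (by omega)
            · rw [← hp.2]
              exact Nat.lt_pow_succ_log_self (by norm_num) p
      _ = ((Finset.Ico (2 ^ i) (2 ^ (i + 1))).filter Nat.Prime).card * ((1 : ℝ) / 2 ^ i) := by
          rw [Finset.sum_const, nsmul_eq_mul]
      _ ≤ 4 * ((i : ℝ))⁻¹ := by
          have h7 := MER_card i hi.1
          have h8 : (i : ℝ) * ((Finset.Ico (2 ^ i) (2 ^ (i + 1))).filter Nat.Prime).card ≤
              2 ^ (i + 2) := by exact_mod_cast h7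
          rw [← div_eq_mul_inv, le_div_iff₀ hi0, mul_one_div, div_mul_eq_mul_div, div_le_iff₀ h2i]
          calc _ = (i : ℝ) * ((Finset.Ico (2 ^ i) (2 ^ (i + 1))).filter Nat.Prime).card := by ring
            _ ≤ _ := h8
            _ = 4 * 2 ^ i := by ring
  refine (Finset.sum_le_sum h1).trans ?_
  rw [← Finset.mul_sum]
  have h9 : ∑ i ∈ Finset.Icc 1 L, ((i : ℝ))⁻¹ = ((harmonic L : ℚ) : ℝ) := by
    rw [harmonic_eq_sum_Icc]
    push_cast
    rfl
  rw [h9]
  rcases Nat.eq_zero_or_pos L with h0 | h0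
  · rw [h0]
    simp only [harmonic_zero, Rat.cast_zero, mul_zero]
    have : 0 ≤ Real.log (1 + Real.log x) := Real.log_nonneg (by linarith)
    positivity
  · have h10 := harmonic_le_one_add_log L
    have h11 : (L : ℝ) ≤ 2 * (1 + Real.log x) := by
      have h12 : ((2 : ℝ) ^ L) ≤ x := by
        have : 2 ^ L ≤ n := Nat.pow_log_le_self 2 (by omega)
        exact le_trans (by exact_mod_cast this) hnx
      have h13 : (L : ℝ) * Real.log 2 ≤ Real.log x := by
        rw [← Real.log_pow]
        exact Real.log_le_log (by positivity) h12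
      have h14 : (1 : ℝ) / 2 ≤ Real.log 2 := by
        have := Real.log_two_gt_d9
        linarith
      have h15 : (0 : ℝ) ≤ L := Nat.cast_nonneg _
      nlinarith
    have h16 : Real.log L ≤ Real.log 2 + Real.log (1 + Real.log x) := by
      rw [← Real.log_mul (by norm_num) (by linarith)]
      exact Real.log_le_log (by exact_mod_cast h0) h11
    have h17 : Real.log 2 ≤ 1 := by
      have := Real.log_two_lt_d9
      linarith
    have h18 : 0 ≤ Real.log (1 + Real.log x) := Real.log_nonneg (by linarith)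
    nlinarith


end Pool.Agent.AAO
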