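import Pool.Agent.Lib_helper65.AAO.Defs

/-! # AAO, block NRM: norms from `ℤ[ζ_p]` -/

set_option autoImplicit false

namespace Pool.Agent.AAO

open Polynomial

private theorem nrm_conj {p : ℕ} (hp : p.Prime) {ζ : ℂ} (hζ : IsPrimitiveRoot ζ p) (f : ℤ[X]) :
    (starRingEnd ℂ) (aeval ζ f) = aeval ζ (f.comp (X ^ (p - 1))) := by
  have h1 : ‖ζ‖ = 1 := Complex.norm_eq_one_of_pow_eq_one hζ.pow_eq_one hp.ne_zero
  have h2 : ζ⁻¹ = (starRingEnd ℂ) ζ := Complex.inv_eq_conj h1
  have h3 : ζ ^ (p - 1) = (starRingEnd ℂ) ζ := by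
    rw [← h2]
    apply eq_inv_of_mul_eq_one_left
    rw [← pow_succ, Nat.sub_add_cancel hp.one_lt.le]
    exact hζ.pow_eq_one
  rw [aeval_comp, map_pow, aeval_X, h3, aeval_def, aeval_def, hom_eval₂]
  congr 1
  exact RingHom.ext_int _ _

private theorem nrm_expand {r : ℕ} [Fact r.Prime] (F : (ZMod r)[X]) (j : ℕ) :
    F.comp (X ^ (r ^ j)) = F ^ (r ^ j) := by
  induction j with
  | zero => simp
  | succ j ih =>
    have h1 : F.comp (X ^ (r ^ (j + 1))) = (F.comp (X ^ (r ^ j))).comp (X ^ r) := by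
      rw [comp_assoc, X_pow_comp, ← pow_mul, pow_succ, mul_comm]
    rw [h1, ih, pow_comp, ← expand_eq_comp_X_pow, ZMod.expand_card, ← pow_mul, pow_succ, mul_comm]

private theorem nrm_comp {R : Type} [CommRing R] (F a b : R[X]) : a - b ∣ F.comp a - F.comp b := by
  have h1 := sub_dvd_eval_sub a b (F.map C)
  rwa [eval_map, eval_map] at h1

private theorem nrm_dvd {p r j : ℕ} (hp : p.Prime) [hr : Fact r.Prime] (hrp : r ≠ p)
    (hj : (r : ZMod p) ^ j = -1) (F : (ZMod r)[X])
    (h : cyclotomic p (ZMod r) ∣ F * F.comp (X ^ (p - 1))) : cyclotomic p (ZMod r) ∣ F := by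
  haveI : NeZero ((p : ℕ) : ZMod r) := ⟨by
    rw [Ne, ZMod.natCast_eq_zero_iff]
    intro hd
    exact hrp ((Nat.prime_dvd_prime_iff_eq hr.out hp).1 hd)⟩
  have h1 : p ∣ r ^ j + 1 := by
    rw [← ZMod.natCast_eq_zero_iff]
    push_cast
    rw [hj]
    ring
  obtain ⟨s, hs⟩ := h1
  have hs0 : 0 < s := by
    rcases Nat.eq_zero_or_pos s with h | h
    · rw [h, Nat.mul_zero] at hs
      omega
    · exact h
  obtain ⟨t, rfl⟩ : ∃ t, s = t + 1 := ⟨s - 1, by omega⟩
  have hp1 := hp.one_lt
  have h2 : r ^ j = (p - 1) + p * t := by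
    have : p * (t + 1) = p * t + p := by ring
    omega
  have h3 : cyclotomic p (ZMod r) ∣ (X : (ZMod r)[X]) ^ (r ^ j) - X ^ (p - 1) := by
    have e : (X : (ZMod r)[X]) ^ (r ^ j) - X ^ (p - 1) = X ^ (p - 1) * ((X ^ p) ^ t - 1) := by
      rw [h2, pow_add, pow_mul]
      ring
    rw [e]
    refine Dvd.dvd.mul_left ?_ _
    refine (cyclotomic.dvd_X_pow_sub_one p (ZMod r)).trans ?_
    have := sub_dvd_pow_sub_pow ((X : (ZMod r)[X]) ^ p) 1 t
    rwa [one_pow] at this
  have h4 := h3.trans (nrm_comp F (X ^ (r ^ j)) (X ^ (p - 1)))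
  rw [nrm_expand] at h4
  have h5 : cyclotomic p (ZMod r) ∣ F ^ (r ^ j + 1) := by
    have e : F ^ (r ^ j + 1) = F * (F ^ (r ^ j) - F.comp (X ^ (p - 1))) +
        F * F.comp (X ^ (p - 1)) := by
      rw [pow_succ]
      ring
    rw [e]
    exact dvd_add (h4.mul_left _) h
  exact ((squarefree_cyclotomic p (ZMod r)).dvd_pow_iff_dvd (Nat.succ_ne_zero _)).1 h5

theorem even_val (p r j n : ℕ) (hp : p.Prime) (hr : r.Prime) (hrp : r ≠ p)
    (hj : (r : ZMod p) ^ j = -1) (ζ : ℂ) (hζ : IsPrimitiveRoot ζ p) (f : ℤ[X]) (hn : n ≠ 0)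
    (h : aeval ζ f * (starRingEnd ℂ) (aeval ζ f) = (n : ℂ)) : Even (n.factorization r) := by
  haveI : Fact r.Prime := ⟨hr⟩
  induction n using Nat.strong_induction_on generalizing f with
  | _ n ih =>
    by_cases hrn : r ∣ n
    swap
    · rw [Nat.factorization_eq_zero_of_not_dvd hrn]
      exact Even.zero
    · have hmin := cyclotomic_eq_minpoly hζ hp.pos
      have hint : IsIntegral ℤ ζ := hζ.isIntegral hp.pos
      have hdvd : ∀ g : ℤ[X], aeval ζ g = 0 → cyclotomic p ℤ ∣ g := fun g hg => by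
        rw [hmin]
        exact minpoly.isIntegrallyClosed_dvd hint hg
      have h1 : cyclotomic p ℤ ∣ f * f.comp (X ^ (p - 1)) - C (n : ℤ) := by
        apply hdvd
        rw [map_sub, map_mul, ← nrm_conj hp hζ, h, aeval_C]
        simp
      have h2 := Polynomial.map_dvd (Int.castRingHom (ZMod r)) h1
      rw [map_cyclotomic_int, Polynomial.map_sub, Polynomial.map_mul, map_comp, map_C,
        Polynomial.map_pow, map_X] at h2
      have h3 : (Int.castRingHom (ZMod r)) ((n : ℕ) : ℤ) = 0 := by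
        rw [eq_intCast, Int.cast_natCast, ZMod.natCast_eq_zero_iff]
        exact hrn
      rw [h3, C_0, sub_zero] at h2
      have h4 := nrm_dvd hp hrp hj _ h2
      have hmon : (cyclotomic p ℤ).Monic := cyclotomic.monic p ℤ
      have h5 : (f %ₘ cyclotomic p ℤ).map (Int.castRingHom (ZMod r)) = 0 := by
        rw [map_modByMonic _ hmon, map_cyclotomic_int,
          (modByMonic_eq_zero_iff_dvd (cyclotomic.monic p (ZMod r))).2 h4]
      have h6 : C (r : ℤ) ∣ f %ₘ cyclotomic p ℤ := by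
        rw [C_dvd_iff_dvd_coeff]
        intro i
        have h7 := congrArg (fun q => coeff q i) h5
        simp only [coeff_map, coeff_zero, eq_intCast] at h7
        exact (ZMod.intCast_zmod_eq_zero_iff_dvd _ _).1 h7
      obtain ⟨g, hg⟩ := h6
      have h8 : aeval ζ f = (r : ℂ) * aeval ζ g := by
        have h9 := modByMonic_add_div f (cyclotomic p ℤ)
        rw [← h9, map_add, map_mul, hg, map_mul, aeval_C]
        have h10 : aeval ζ (cyclotomic p ℤ) = 0 := by
          rw [hmin]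
          exact minpoly.aeval _ _
        rw [h10, zero_mul, add_zero]
        simp
      have hr0 : (r : ℂ) ≠ 0 := Nat.cast_ne_zero.2 hr.ne_zero
      have h9 : (r : ℂ) ^ 2 * (aeval ζ g * (starRingEnd ℂ) (aeval ζ g)) = (n : ℂ) := by
        rw [← h, h8, map_mul, Complex.conj_natCast]
        ring
      have h10 : IsIntegral ℤ (aeval ζ g * (starRingEnd ℂ) (aeval ζ g)) := by
        rw [nrm_conj hp hζ, ← map_mul]
        have e := aeval_algebraMap_apply ℂ (⟨ζ, hint⟩ : integralClosure ℤ ℂ)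
          (g * g.comp (X ^ (p - 1)))
        exact e ▸ (aeval (⟨ζ, hint⟩ : integralClosure ℤ ℂ) (g * g.comp (X ^ (p - 1)))).2
      have h11 : aeval ζ g * (starRingEnd ℂ) (aeval ζ g) = algebraMap ℚ ℂ ((n : ℚ) / (r : ℚ) ^ 2) := by
        have : aeval ζ g * (starRingEnd ℂ) (aeval ζ g) = (n : ℂ) / (r : ℂ) ^ 2 := by
          rw [← h9]
          field_simp
        rw [this]
        simp
      rw [h11] at h10
      have h12 : IsIntegral ℤ ((n : ℚ) / (r : ℚ) ^ 2) :=
        (isIntegral_algebraMap_iff (algebraMap ℚ ℂ).injective).1 h10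
      obtain ⟨m, hm⟩ := IsIntegrallyClosed.isIntegral_iff.1 h12
      have hrq : (r : ℚ) ≠ 0 := Nat.cast_ne_zero.2 hr.ne_zero
      have h13 : (n : ℤ) = (r : ℤ) ^ 2 * m := by
        have : (n : ℚ) = (r : ℚ) ^ 2 * m := by
          have h14 : (m : ℚ) = (n : ℚ) / (r : ℚ) ^ 2 := by
            rw [← hm]
            simp
          rw [h14]
          field_simp
        exact_mod_cast this
      have hm0 : 0 ≤ m := by
        by_contra hneg
        push Not at hneg
        have h15 : (0 : ℤ) < (r : ℤ) ^ 2 := by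
          have := hr.pos
          positivity
        nlinarith [Int.natCast_nonneg n]
      obtain ⟨k, rfl⟩ := Int.eq_ofNat_of_zero_le hm0
      have h14 : n = r ^ 2 * k := by exact_mod_cast h13
      have hk0 : k ≠ 0 := by
        rintro rfl
        exact hn (by rw [h14, Nat.mul_zero])
      have hkn : k < n := by
        rw [h14]
        refine lt_mul_of_one_lt_left (Nat.pos_of_ne_zero hk0) ?_
        exact Nat.one_lt_pow (by norm_num) hr.one_lt
      have h15 := ih k hkn g hk0 (by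
        rw [h11, h14]
        push_cast
        rw [mul_div_cancel_left₀ _ (pow_ne_zero 2 hr0)])
      rw [h14, Nat.factorization_mul (pow_ne_zero 2 hr.ne_zero) hk0, Nat.factorization_pow,
        hr.factorization]
      simp only [Finsupp.coe_add, Finsupp.coe_smul, Pi.add_apply, Pi.smul_apply,
        Finsupp.single_eq_same, smul_eq_mul]
      exact (by norm_num : Even (2 * 1)).add h15

end Pool.Agent.AAO

example : type_of% @Pool.Agent.AAO.even_val := @Pool.Agent.AAO.even_val
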