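import Pool.Agent.Lib_helper65.AAOF.MER

/-! # AAO, block RNK: Rankin's bound for smooth numbers above `2 ^ (I / 4)` -/

namespace Pool.Agent.AAO

/-- the completely multiplicative function `m ^ s` -/
noncomputable def rnkF (s : ℝ) : ℕ →* ℝ where
  toFun m := (m : ℝ) ^ s
  map_one' := by simp
  map_mul' m n := by
    push_cast
    exact Real.mul_rpow (Nat.cast_nonneg m) (Nat.cast_nonneg n)

theorem rnk_half : (2 : ℝ) ^ (-(1 / 2) : ℝ) ≤ 71 / 100 := by
  rw [Real.rpow_neg (by norm_num), ← Real.sqrt_eq_rpow]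
  rw [inv_le_comm₀ (Real.sqrt_pos.2 (by norm_num)) (by norm_num)]
  apply Real.le_sqrt_of_sq_le
  norm_num

/-- `(1 - x)⁻¹ ≤ exp (y)` if `x ≤ 0.71` and `x / 0.29 ≤ y` -/
theorem rnk_inv {x y : ℝ} (h0 : 0 ≤ x) (h1 : x ≤ 71 / 100) (h2 : x * (100 / 29) ≤ y) :
    (1 - x)⁻¹ ≤ Real.exp y := by
  have h3 : 0 < 1 - x := by linarith
  have h4 : (1 - x)⁻¹ ≤ 1 + x * (100 / 29) := by
    rw [inv_le_iff_one_le_mul₀ h3]
    nlinarith
  have h5 := Real.add_one_le_exp y
  linarith

open Classical in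
/-- the Euler product -/
theorem rnk_euler (z : ℝ) (hz : 1 ≤ z) (N : ℕ) (δ : ℝ) (hδ : 0 < δ) (hδ' : δ ≤ 1 / 2)
    (hzδ : z ^ δ = Real.exp 1) :
    ∑ m ∈ (Finset.Icc 1 N).filter (fun m : ℕ => Smooth z m), (m : ℝ) ^ (δ - 1) ≤
      Real.exp (10 * ∑ p ∈ (Finset.Icc 1 ⌊z⌋₊).filter Nat.Prime, (1 : ℝ) / p) := by
  have hpw : ∀ p : ℕ, p.Prime → (p : ℝ) ^ (δ - 1) ≤ 71 / 100 := by
    intro p hp
    have h2 : (2 : ℝ) ≤ p := by exact_mod_cast hp.two_le
    calc (p : ℝ) ^ (δ - 1) ≤ (2 : ℝ) ^ (δ - 1) :=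
          Real.rpow_le_rpow_of_nonpos (by norm_num) h2 (by linarith)
      _ ≤ (2 : ℝ) ^ (-(1 / 2) : ℝ) := Real.rpow_le_rpow_of_exponent_le (by norm_num) (by linarith)
      _ ≤ _ := rnk_half
  have h := EulerProduct.summable_and_hasSum_factoredNumbers_prod_filter_prime_geometric
    (f := rnkF (δ - 1)) (fun {p} hp => by
      show ‖(p : ℝ) ^ (δ - 1)‖ < 1
      rw [Real.norm_of_nonneg (Real.rpow_nonneg (Nat.cast_nonneg p) _)]
      exact (hpw p hp).trans_lt (by norm_num)) (Finset.Icc 1 ⌊z⌋₊)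
  have hmem : ∀ m ∈ (Finset.Icc 1 N).filter (fun m : ℕ => Smooth z m),
      m ∈ Nat.factoredNumbers (Finset.Icc 1 ⌊z⌋₊) := by
    intro m hm
    rw [Finset.mem_filter] at hm
    rw [Nat.mem_factoredNumbers']
    intro p hp hpm
    rw [Finset.mem_Icc]
    exact ⟨hp.one_lt.le, Nat.le_floor (hm.2 p hp hpm)⟩
  have h1 : ∑ m ∈ (Finset.Icc 1 N).filter (fun m : ℕ => Smooth z m), (m : ℝ) ^ (δ - 1) ≤
      ∏ p ∈ (Finset.Icc 1 ⌊z⌋₊).filter Nat.Prime, (1 - rnkF (δ - 1) p)⁻¹ := by
    rw [← h.2.tsum_eq]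
    have e : ∑ m ∈ (Finset.Icc 1 N).filter (fun m : ℕ => Smooth z m), (m : ℝ) ^ (δ - 1) =
        ∑ m ∈ ((Finset.Icc 1 N).filter (fun m : ℕ => Smooth z m)).attach.map
          ⟨fun m => (⟨m.1, hmem m.1 m.2⟩ : Nat.factoredNumbers (Finset.Icc 1 ⌊z⌋₊)),
            fun a b hab => Subtype.ext (congrArg (fun x => x.1) hab)⟩,
          rnkF (δ - 1) (m : ℕ) := by
      rw [Finset.sum_map, ← Finset.sum_attach]
      rfl
    rw [e]
    exact Summable.sum_le_tsum _ (fun m _ => Real.rpow_nonneg (Nat.cast_nonneg _) _) h.2.summable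
  refine h1.trans ?_
  rw [Finset.mul_sum, Real.exp_sum]
  refine Finset.prod_le_prod (fun p hp => ?_) (fun p hp => ?_)
  · rw [Finset.mem_filter] at hp
    have h3 : rnkF (δ - 1) p ≤ 71 / 100 := hpw p hp.2
    exact inv_nonneg.2 (by linarith)
  · rw [Finset.mem_filter, Finset.mem_Icc] at hp
    refine rnk_inv (Real.rpow_nonneg (Nat.cast_nonneg p) _) (hpw p hp.2) ?_
    have hp0 : (0 : ℝ) < p := by exact_mod_cast hp.2.pos
    have h3 : (p : ℝ) ^ (δ - 1) ≤ Real.exp 1 / p := by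
      rw [Real.rpow_sub hp0, Real.rpow_one, ← hzδ]
      refine div_le_div_of_nonneg_right ?_ hp0.le
      refine Real.rpow_le_rpow hp0.le ?_ hδ.le
      exact (Nat.cast_le.2 hp.1.2).trans (Nat.floor_le (by linarith))
    have h4 : Real.exp 1 < 2.7182818286 := Real.exp_one_lt_d9
    have h5 : (p : ℝ) ^ (δ - 1) ≤ 2.9 / p := h3.trans (by
      refine div_le_div_of_nonneg_right ?_ hp0.le
      linarith)
    calc (p : ℝ) ^ (δ - 1) * (100 / 29) ≤ 2.9 / p * (100 / 29) := by
          exact mul_le_mul_of_nonneg_right h5 (by norm_num)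
      _ = 10 * (1 / p) := by ring

open Classical in
theorem smooth_tail : ∃ K₀ : ℝ, 1 ≤ K₀ ∧ ∀ K : ℝ, K₀ ≤ K → ∃ C : ℝ, 0 < C ∧ ∀ I : ℕ, 1 ≤ I →
    ∑ m ∈ (Finset.Icc 1 (2 ^ I)).filter
      (fun m : ℕ => (2 : ℝ) ^ ((I : ℝ) / 4) < m ∧ Smooth (zz K I) m), (1 : ℝ) / m ≤ C / I := by
  obtain ⟨c, hc, hmer⟩ := mer
  have hlog2 : 0 < Real.log 2 := Real.log_pos (by norm_num)
  refine ⟨max 1 ((10 * c + 1) * 4 / Real.log 2), le_max_left _ _, fun K hK => ?_⟩
  have hK1 : 1 ≤ K := (le_max_left _ _).trans hK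
  have hK2 : 10 * c + 1 ≤ K * Real.log 2 / 4 := by
    have h := (le_max_right _ _).trans hK
    rw [div_le_iff₀ hlog2] at h
    linarith
  set B : ℝ := (4 * K + 2) ^ 2 with hB
  have hBpos : 0 < B := by positivity
  refine ⟨Real.exp (10 * c) + 2 ^ B * B, by positivity, fun I hI => ?_⟩
  have hI1 : (1 : ℝ) ≤ I := by exact_mod_cast hI
  have hI0 : (0 : ℝ) < I := by linarith
  set L : ℝ := Real.log (I + 2) with hL
  have hL1 : 1 ≤ L := by
    rw [hL, Real.le_log_iff_exp_le (by linarith)]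
    have := Real.exp_one_lt_d9
    linarith
  have hL0 : 0 < L := by linarith
  have hKL : 0 < K * L := by positivity
  have hKL1 : 1 ≤ K * L := by nlinarith
  set z : ℝ := zz K I with hz
  have hlz : Real.log z = I / (K * L) := by
    rw [hz, zz, Real.log_exp]
  have hz0 : 0 < z := Real.exp_pos _
  have hz1 : 1 ≤ z := Real.one_le_exp (by positivity)
  rcases le_or_gt 2 (Real.log z) with hcase | hcase
  · -- the main case
    have hlz0 : 0 < Real.log z := by linarith
    set δ : ℝ := 1 / Real.log z with hδ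
    have hδ0 : 0 < δ := by positivity
    have hδ1 : δ ≤ 1 / 2 := by
      rw [hδ]
      exact one_div_le_one_div_of_le (by norm_num) hcase
    have hzδ : z ^ δ = Real.exp 1 := by
      rw [Real.rpow_def_of_pos hz0, hδ, mul_one_div_cancel hlz0.ne']
    have hE := rnk_euler z hz1 (2 ^ I) δ hδ0 hδ1 hzδ
    have hδI : δ * I = K * L := by
      rw [hδ, hlz]
      field_simp
    have h1 : ∑ m ∈ (Finset.Icc 1 (2 ^ I)).filter
        (fun m : ℕ => (2 : ℝ) ^ ((I : ℝ) / 4) < m ∧ Smooth z m), (1 : ℝ) / m ≤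
        Real.exp (-(K * L * Real.log 2 / 4)) *
          ∑ m ∈ (Finset.Icc 1 (2 ^ I)).filter (fun m : ℕ => Smooth z m), (m : ℝ) ^ (δ - 1) := by
      rw [Finset.mul_sum]
      refine (Finset.sum_le_sum (g := fun m : ℕ =>
        Real.exp (-(K * L * Real.log 2 / 4)) * (m : ℝ) ^ (δ - 1)) fun m hm => ?_).trans ?_
      · rw [Finset.mem_filter, Finset.mem_Icc] at hm
        have hm0 : (0 : ℝ) < m := by exact_mod_cast hm.1.1
        have h2 : (2 : ℝ) ^ ((I : ℝ) / 4) < m := hm.2.1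
        have h3 : Real.exp (K * L * Real.log 2 / 4) ≤ (m : ℝ) ^ δ := by
          calc Real.exp (K * L * Real.log 2 / 4) = ((2 : ℝ) ^ ((I : ℝ) / 4)) ^ δ := by
                rw [← Real.rpow_mul (by norm_num), Real.rpow_def_of_pos (by norm_num)]
                congr 1
                rw [← hδI]
                ring
            _ ≤ (m : ℝ) ^ δ := Real.rpow_le_rpow (by positivity) h2.le hδ0.le
        rw [Real.exp_neg, Real.rpow_sub hm0, Real.rpow_one]
        have hE0 := Real.exp_pos (K * L * Real.log 2 / 4)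
        calc (1 : ℝ) / m = (Real.exp (K * L * Real.log 2 / 4))⁻¹ *
              (Real.exp (K * L * Real.log 2 / 4) / m) := by
                field_simp
          _ ≤ _ := by gcongr
      · refine Finset.sum_le_sum_of_subset_of_nonneg ?_ fun m _ _ => by positivity
        intro m hm
        rw [Finset.mem_filter] at hm ⊢
        exact ⟨hm.1, hm.2.2⟩
    refine h1.trans ?_
    have h2 : ∑ p ∈ (Finset.Icc 1 ⌊z⌋₊).filter Nat.Prime, (1 : ℝ) / p ≤ c + c * L := by
      refine (hmer z hz1).trans ?_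
      have h3 : Real.log (1 + Real.log z) ≤ L := by
        rw [hL]
        refine Real.log_le_log (by linarith) ?_
        have h4 : Real.log z ≤ I := by
          rw [hlz]
          exact div_le_self hI0.le hKL1
        linarith
      have := mul_le_mul_of_nonneg_left h3 hc.le
      linarith
    have h3 : ∑ m ∈ (Finset.Icc 1 (2 ^ I)).filter (fun m : ℕ => Smooth z m), (m : ℝ) ^ (δ - 1) ≤
        Real.exp (10 * (c + c * L)) := hE.trans (Real.exp_le_exp.2 (by linarith))
    calc _ ≤ Real.exp (-(K * L * Real.log 2 / 4)) * Real.exp (10 * (c + c * L)) :=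
          mul_le_mul_of_nonneg_left h3 (Real.exp_pos _).le
      _ = Real.exp (-(K * L * Real.log 2 / 4) + 10 * (c + c * L)) := (Real.exp_add _ _).symm
      _ ≤ Real.exp (10 * c - L) := by
          refine Real.exp_le_exp.2 ?_
          have := mul_le_mul_of_nonneg_right hK2 hL0.le
          nlinarith
      _ = Real.exp (10 * c) / (I + 2) := by
          rw [Real.exp_sub, hL, Real.exp_log (by linarith)]
      _ ≤ Real.exp (10 * c) / I :=
          div_le_div_of_nonneg_left (Real.exp_pos _).le hI0 (by linarith)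
      _ ≤ _ := by
          refine div_le_div_of_nonneg_right ?_ hI0.le
          have : 0 < (2 : ℝ) ^ B * B := by positivity
          linarith
  · -- small `I`
    have h1 : (I : ℝ) < 2 * (K * L) := by
      rw [hlz, div_lt_iff₀ hKL] at hcase
      exact hcase
    have h2 : L ≤ 2 * Real.sqrt (I + 2) := by
      have h3 := Real.log_le_sub_one_of_pos (Real.sqrt_pos.2 (by linarith : (0 : ℝ) < I + 2))
      rw [Real.log_sqrt (by linarith)] at h3
      rw [hL]
      linarith
    have h3 : (I : ℝ) ≤ B := by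
      set w : ℝ := Real.sqrt (I + 2) with hw
      have hw0 : 0 ≤ w := Real.sqrt_nonneg _
      have hw2 : w ^ 2 = I + 2 := Real.sq_sqrt (by linarith)
      have hw1 : 1 ≤ w := by nlinarith
      have h4 : w ^ 2 ≤ (4 * K + 2) * w := by
        have h5 : K * L ≤ K * (2 * w) := mul_le_mul_of_nonneg_left h2 (by linarith)
        nlinarith
      have h6 : w ≤ 4 * K + 2 := by
        have : w * w ≤ (4 * K + 2) * w := by linarith [h4, sq w]
        exact le_of_mul_le_mul_right this (by linarith)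
      have h7 : w ^ 2 ≤ (4 * K + 2) ^ 2 := pow_le_pow_left₀ hw0 h6 2
      rw [hB]
      linarith
    have h4 : ∑ m ∈ (Finset.Icc 1 (2 ^ I)).filter
        (fun m : ℕ => (2 : ℝ) ^ ((I : ℝ) / 4) < m ∧ Smooth z m), (1 : ℝ) / m ≤ 2 ^ B := by
      refine (Finset.sum_le_sum_of_subset_of_nonneg (Finset.filter_subset _ _)
        fun m _ _ => by positivity).trans ?_
      calc ∑ m ∈ Finset.Icc (1 : ℕ) (2 ^ I), (1 : ℝ) / (m : ℝ) ≤
            ∑ m ∈ Finset.Icc (1 : ℕ) (2 ^ I), (1 : ℝ) := by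
              refine Finset.sum_le_sum fun m hm => ?_
              rw [Finset.mem_Icc] at hm
              have : (1 : ℝ) ≤ m := by exact_mod_cast hm.1
              rw [div_le_one (by linarith)]
              exact this
        _ = (2 : ℝ) ^ (I : ℝ) := by
              rw [Finset.sum_const, Nat.card_Icc, Nat.add_sub_cancel, nsmul_eq_mul, mul_one,
                Real.rpow_natCast]
              push_cast
              rfl
        _ ≤ 2 ^ B := Real.rpow_le_rpow_of_exponent_le (by norm_num) h3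
    refine h4.trans ?_
    rw [le_div_iff₀ hI0]
    have h5 : (2 : ℝ) ^ B * I ≤ 2 ^ B * B := mul_le_mul_of_nonneg_left h3 (by positivity)
    have := Real.exp_pos (10 * c)
    linarith

example : type_of% @smooth_tail := @smooth_tail

end Pool.Agent.AAO
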