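import Pool.Agent.Lib_helper65.AAO.Defs
import Pool.Agent.Lib_helper10.T2F.SLW

/-! AAO, block SEL (helper36): the Selberg sieve for rough numbers in a progression -/

namespace Pool.Agent.AAO

/-! ### counting in progressions -/

theorem sel_count (N r v : ℕ) (hr : 0 < r) :
    (N : ℝ) / r - 1 ≤ (((Finset.Icc 1 N).filter (fun k => k ≡ v [MOD r])).card : ℝ) ∧
    N / r ≤ ((Finset.Icc 1 N).filter (fun k => k ≡ v [MOD r])).card ∧
    (((Finset.Icc 1 N).filter (fun k => k ≡ v [MOD r])).card : ℝ) ≤ (N : ℝ) / r + 1 := by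
  have h1 : ((Finset.Icc 1 N).filter (fun k => k ≡ v [MOD r])).card =
      N.count (· ≡ v + (r - 1) [MOD r]) := by
    rw [Nat.count_eq_card_filter_range]
    refine Finset.card_nbij' (fun k => k - 1) (fun k => k + 1) ?_ ?_ ?_ ?_
    · intro k hk
      simp only [Finset.coe_filter, Finset.mem_Icc, Set.mem_ofPred_eq, Finset.mem_range] at hk ⊢
      refine ⟨by omega, ?_⟩
      have h2 : k + (r - 1) ≡ v + (r - 1) [MOD r] := hk.2.add_right _
      have h3 : k + (r - 1) = k - 1 + r := by omega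
      rw [h3] at h2
      exact (Nat.ModEq.symm (Nat.add_modEq_right (a := k - 1) (n := r))).trans h2
    · intro k hk
      simp only [Finset.coe_filter, Finset.mem_Icc, Set.mem_ofPred_eq, Finset.mem_range] at hk ⊢
      refine ⟨by omega, ?_⟩
      have h2 : k + 1 ≡ v + (r - 1) + 1 [MOD r] := hk.2.add_right _
      have h3 : v + (r - 1) + 1 = v + r := by omega
      rw [h3] at h2
      exact h2.trans (Nat.add_modEq_right (a := v) (n := r))
    · intro k hk
      simp only [Finset.coe_filter, Finset.mem_Icc, Set.mem_ofPred_eq] at hk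
      show k - 1 + 1 = k
      omega
    · intro k _
      show k + 1 - 1 = k
      omega
  rw [h1, Nat.count_modEq_card N hr]
  have h2 : (N : ℝ) / r - 1 ≤ ((N / r : ℕ) : ℝ) := by
    have h3 := Nat.lt_floor_add_one ((N : ℝ) / r)
    rw [Nat.floor_div_natCast, Nat.floor_natCast] at h3
    linarith
  have h4 : ((N / r : ℕ) : ℝ) ≤ (N : ℝ) / r := Nat.cast_div_le
  split_ifs
  · refine ⟨by push_cast; linarith, by omega, by push_cast; linarith⟩
  · refine ⟨by push_cast; linarith, by omega, by push_cast; linarith⟩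

theorem sel_count' (X : ℝ) (hX : 0 ≤ X) (r v : ℕ) (hr : 0 < r) :
    |(((Finset.Icc 1 ⌊X⌋₊).filter (fun k => k ≡ v [MOD r])).card : ℝ) - X / r| ≤ 1 := by
  obtain ⟨-, h2, h3⟩ := sel_count ⌊X⌋₊ r v hr
  have hr' : (0 : ℝ) < r := by exact_mod_cast hr
  have h4 : ((⌊X⌋₊ : ℕ) : ℝ) / r ≤ X / r :=
    div_le_div_of_nonneg_right (Nat.floor_le hX) hr'.le
  have h5 : X / r < ((⌊X⌋₊ / r : ℕ) : ℝ) + 1 := by
    have h6 := Nat.lt_floor_add_one (X / r)
    rwa [Nat.floor_div_natCast] at h6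
  have h7 : ((⌊X⌋₊ / r : ℕ) : ℝ) ≤
      (((Finset.Icc 1 ⌊X⌋₊).filter (fun k => k ≡ v [MOD r])).card : ℝ) := by exact_mod_cast h2
  rw [abs_le]
  constructor <;> linarith

/-! ### the mass -/

open Classical in
/-- sum of the reciprocals of the numbers with primes in `T` -/
noncomputable def sel_H (T : Finset ℕ) (y : ℕ) : ℝ :=
  ∑ n ∈ (Finset.Icc 1 y).filter (fun n => ∀ p : ℕ, p.Prime → p ∣ n → p ∈ T), (1 : ℝ) / n

open Classical in
/-- the mass of the sieve -/
noncomputable def sel_G (T : Finset ℕ) (y : ℕ) : ℝ :=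
  ∑ d ∈ (Finset.Icc 1 y).filter (fun d => Squarefree d ∧ ∀ p : ℕ, p.Prime → p ∣ d → p ∈ T),
    ∏ p ∈ d.primeFactors, (1 / (p : ℝ)) / (1 - 1 / (p : ℝ))

theorem sel_w_nonneg {p : ℕ} (hp : p.Prime) : 0 ≤ (1 / (p : ℝ)) / (1 - 1 / (p : ℝ)) := by
  have h2 : (2 : ℝ) ≤ p := by exact_mod_cast hp.two_le
  have h3 : 1 / (p : ℝ) ≤ 1 / 2 := by
    apply one_div_le_one_div_of_le <;> linarith
  apply div_nonneg (by positivity)
  linarith

theorem sel_G_nonneg (T : Finset ℕ) (y : ℕ) : 0 ≤ sel_G T y := by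
  unfold sel_G
  exact Finset.sum_nonneg fun d _ => Finset.prod_nonneg fun p hp =>
    sel_w_nonneg (Nat.prime_of_mem_primeFactors hp)

theorem sel_H_nonneg (T : Finset ℕ) (y : ℕ) : 0 ≤ sel_H T y := by
  unfold sel_H
  exact Finset.sum_nonneg fun d _ => by positivity

theorem sel_H_mono (T : Finset ℕ) {y y' : ℕ} (h : y ≤ y') : sel_H T y ≤ sel_H T y' := by
  classical
  unfold sel_H
  apply Finset.sum_le_sum_of_subset_of_nonneg
  · intro n hn
    rw [Finset.mem_filter, Finset.mem_Icc] at hn ⊢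
    exact ⟨⟨hn.1.1, hn.1.2.trans h⟩, hn.2⟩
  · intro n _ _
    positivity

theorem sel_G_mono (T : Finset ℕ) {y y' : ℕ} (h : y ≤ y') : sel_G T y ≤ sel_G T y' := by
  classical
  unfold sel_G
  apply Finset.sum_le_sum_of_subset_of_nonneg
  · intro n hn
    rw [Finset.mem_filter, Finset.mem_Icc] at hn ⊢
    exact ⟨⟨hn.1.1, hn.1.2.trans h⟩, hn.2⟩
  · intro n _ _
    exact Finset.prod_nonneg fun p hp => sel_w_nonneg (Nat.prime_of_mem_primeFactors hp)

theorem sel_H_rec {T : Finset ℕ} {p : ℕ} (hp : p.Prime) (hpT : p ∉ T) (y : ℕ) :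
    sel_H (insert p T) y = sel_H T y + 1 / p * sel_H (insert p T) (y / p) := by
  classical
  unfold sel_H
  rw [← Finset.sum_filter_not_add_sum_filter _ (fun n => p ∣ n), Finset.filter_filter,
    Finset.filter_filter]
  congr 1
  · refine Finset.sum_congr (Finset.filter_congr fun n _ => ⟨fun h r hr hrn => ?_, fun h => ⟨
      fun r hr hrn => Finset.mem_insert_of_mem (h r hr hrn), fun hpn => hpT (h p hp hpn)⟩⟩)
      fun _ _ => rfl
    rcases Finset.mem_insert.1 (h.1 r hr hrn) with rfl | h1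
    · exact absurd hrn h.2
    · exact h1
  · rw [Finset.mul_sum]
    refine Finset.sum_nbij' (fun n => n / p) (fun n => p * n) ?_ ?_ ?_ ?_ ?_
    · intro n hn
      rw [Finset.mem_filter, Finset.mem_Icc] at hn ⊢
      obtain ⟨⟨h1, h2⟩, h3, m, rfl⟩ := hn
      rw [Nat.mul_div_cancel_left _ hp.pos]
      refine ⟨⟨?_, ?_⟩, fun r hr hrm => h3 r hr (hrm.mul_left p)⟩
      · rcases Nat.eq_zero_or_pos m with rfl | h
        · omega
        · exact h
      · rw [Nat.le_div_iff_mul_le hp.pos, mul_comm]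
        exact h2
    · intro m hm
      rw [Finset.mem_filter, Finset.mem_Icc] at hm ⊢
      obtain ⟨⟨h1, h2⟩, h3⟩ := hm
      rw [Nat.le_div_iff_mul_le hp.pos, mul_comm] at h2
      refine ⟨⟨Nat.mul_pos hp.pos h1, h2⟩, fun r hr hrm => ?_, dvd_mul_right _ _⟩
      rcases (hr.dvd_mul).1 hrm with h | h
      · rw [(Nat.prime_dvd_prime_iff_eq hr hp).1 h]
        exact Finset.mem_insert_self _ _
      · exact h3 r hr h
    · intro n hn
      rw [Finset.mem_filter] at hn
      exact Nat.mul_div_cancel' hn.2.2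
    · intro m _
      exact Nat.mul_div_cancel_left _ hp.pos
    · intro n hn
      rw [Finset.mem_filter] at hn
      obtain ⟨_, _, m, rfl⟩ := hn
      rw [Nat.mul_div_cancel_left _ hp.pos]
      push_cast
      rw [div_mul_div_comm, one_mul]

theorem sel_G_rec {T : Finset ℕ} {p : ℕ} (hp : p.Prime) (hpT : p ∉ T) (y : ℕ) :
    sel_G (insert p T) y = sel_G T y + (1 / (p : ℝ)) / (1 - 1 / (p : ℝ)) * sel_G T (y / p) := by
  classical
  unfold sel_G
  rw [← Finset.sum_filter_not_add_sum_filter _ (fun n => p ∣ n), Finset.filter_filter,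
    Finset.filter_filter]
  congr 1
  · refine Finset.sum_congr (Finset.filter_congr fun n _ => ⟨fun h => ⟨h.1.1, fun r hr hrn => ?_⟩,
      fun h => ⟨⟨h.1, fun r hr hrn => Finset.mem_insert_of_mem (h.2 r hr hrn)⟩,
        fun hpn => hpT (h.2 p hp hpn)⟩⟩)
      fun _ _ => rfl
    rcases Finset.mem_insert.1 (h.1.2 r hr hrn) with rfl | h1
    · exact absurd hrn h.2
    · exact h1
  · rw [Finset.mul_sum]
    refine Finset.sum_nbij' (fun n => n / p) (fun n => p * n) ?_ ?_ ?_ ?_ ?_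
    · intro n hn
      rw [Finset.mem_filter, Finset.mem_Icc] at hn ⊢
      obtain ⟨⟨h1, h2⟩, ⟨h3, h4⟩, m, rfl⟩ := hn
      rw [Nat.mul_div_cancel_left _ hp.pos]
      have hm : 1 ≤ m := by
        rcases Nat.eq_zero_or_pos m with rfl | h
        · omega
        · exact h
      have hpm : ¬ p ∣ m := by
        intro h5
        have h6 : p * p ∣ p * m := Nat.mul_dvd_mul_left p h5
        exact hp.one_lt.ne' (Nat.isUnit_iff.1 (h3 p h6))
      refine ⟨⟨hm, ?_⟩, h3.of_mul_right, fun r hr hrm => ?_⟩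
      · rw [Nat.le_div_iff_mul_le hp.pos, mul_comm]
        exact h2
      · rcases Finset.mem_insert.1 (h4 r hr (hrm.mul_left p)) with rfl | h
        · exact absurd hrm hpm
        · exact h
    · intro m hm
      rw [Finset.mem_filter, Finset.mem_Icc] at hm ⊢
      obtain ⟨⟨h1, h2⟩, h3, h4⟩ := hm
      rw [Nat.le_div_iff_mul_le hp.pos, mul_comm] at h2
      have hpm : ¬ p ∣ m := fun h => hpT (h4 p hp h)
      refine ⟨⟨Nat.mul_pos hp.pos h1, h2⟩, ⟨?_, fun r hr hrm => ?_⟩, dvd_mul_right _ _⟩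
      · exact (Nat.squarefree_mul ((Nat.Prime.coprime_iff_not_dvd hp).2 hpm)).2
          ⟨hp.prime.squarefree, h3⟩
      · rcases (hr.dvd_mul).1 hrm with h | h
        · rw [(Nat.prime_dvd_prime_iff_eq hr hp).1 h]
          exact Finset.mem_insert_self _ _
        · exact Finset.mem_insert_of_mem (h4 r hr h)
    · intro n hn
      rw [Finset.mem_filter] at hn
      exact Nat.mul_div_cancel' hn.2.2
    · intro m _
      exact Nat.mul_div_cancel_left _ hp.pos
    · intro n hn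
      rw [Finset.mem_filter, Finset.mem_Icc] at hn
      obtain ⟨⟨h1, h2⟩, ⟨h3, h4⟩, m, rfl⟩ := hn
      rw [Nat.mul_div_cancel_left _ hp.pos]
      have hm : m ≠ 0 := by
        rintro rfl
        omega
      have hpm : ¬ p ∣ m := by
        intro h5
        have h6 : p * p ∣ p * m := Nat.mul_dvd_mul_left p h5
        exact hp.one_lt.ne' (Nat.isUnit_iff.1 (h3 p h6))
      rw [Nat.primeFactors_mul hp.ne_zero hm, hp.primeFactors,
        ← Finset.insert_eq, Finset.prod_insert]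
      intro h5
      exact hpm (Nat.dvd_of_mem_primeFactors h5)

theorem sel_H_le_step {T : Finset ℕ} {p : ℕ} (hp : p.Prime) (hpT : p ∉ T) (y : ℕ) :
    sel_H (insert p T) y ≤ sel_H T y + (1 / (p : ℝ)) / (1 - 1 / (p : ℝ)) * sel_H T (y / p) := by
  have h2 : (2 : ℝ) ≤ p := by exact_mod_cast hp.two_le
  have h3 : 1 / (p : ℝ) ≤ 1 / 2 := by
    apply one_div_le_one_div_of_le <;> linarith
  have h4 : 0 < 1 / (p : ℝ) := by positivity
  induction y using Nat.strong_induction_on with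
  | _ y ih =>
    rcases Nat.eq_zero_or_pos y with rfl | hy
    · have e : ∀ T : Finset ℕ, sel_H T 0 = 0 := fun T => by
        unfold sel_H
        rw [Finset.Icc_eq_empty (by omega), Finset.filter_empty, Finset.sum_empty]
      rw [Nat.zero_div, e, e]
      simp
    · have h5 : y / p < y := Nat.div_lt_self hy hp.one_lt
      have h6 := ih _ h5
      have h7 : sel_H T (y / p / p) ≤ sel_H T (y / p) := sel_H_mono T (Nat.div_le_self _ _)
      have h8 := sel_w_nonneg hp
      rw [sel_H_rec hp hpT]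
      have h9 : 1 / (p : ℝ) * sel_H (insert p T) (y / p) ≤
          1 / (p : ℝ) * (sel_H T (y / p) + (1 / (p : ℝ)) / (1 - 1 / (p : ℝ)) * sel_H T (y / p)) := by
        apply mul_le_mul_of_nonneg_left _ h4.le
        refine h6.trans ?_
        have := mul_le_mul_of_nonneg_left h7 h8
        linarith
      have h10 : 1 / (p : ℝ) * (sel_H T (y / p) + (1 / (p : ℝ)) / (1 - 1 / (p : ℝ)) *
          sel_H T (y / p)) = (1 / (p : ℝ)) / (1 - 1 / (p : ℝ)) * sel_H T (y / p) := by
        have h11 : 1 - 1 / (p : ℝ) ≠ 0 := by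
          have : 0 < 1 - 1 / (p : ℝ) := by linarith
          exact this.ne'
        generalize 1 / (p : ℝ) = t at *
        field_simp
        ring
      linarith

theorem sel_H_le_G (T : Finset ℕ) (hT : ∀ p ∈ T, p.Prime) (y : ℕ) : sel_H T y ≤ sel_G T y := by
  classical
  induction T using Finset.induction_on generalizing y with
  | empty =>
    unfold sel_H sel_G
    have h1 : ∀ n : ℕ, 1 ≤ n → (∀ p : ℕ, p.Prime → p ∣ n → p ∈ (∅ : Finset ℕ)) → n = 1 := by
      intro n hn h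
      by_contra h1
      obtain ⟨p, hp, hpn⟩ := Nat.exists_prime_and_dvd h1
      exact absurd (h p hp hpn) (Finset.notMem_empty p)
    apply le_of_eq
    refine Finset.sum_congr (Finset.filter_congr fun n hn => ⟨fun h => ⟨?_, h⟩, fun h => h.2⟩) ?_
    · rw [h1 n (Finset.mem_Icc.1 hn).1 h]
      exact squarefree_one
    · intro n hn
      rw [Finset.mem_filter, Finset.mem_Icc] at hn
      rw [h1 n hn.1.1 hn.2.2]
      simp
  | insert p T hpT ih =>
    have hp : p.Prime := hT p (Finset.mem_insert_self _ _)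
    have ih' := ih fun r hr => hT r (Finset.mem_insert_of_mem hr)
    have h1 := mul_le_mul_of_nonneg_left (ih' (y / p)) (sel_w_nonneg hp)
    have h2 := sel_H_le_step hp hpT y
    have h3 := ih' y
    rw [sel_G_rec hp hpT]
    linarith

theorem sel_G_union (T U : Finset ℕ) (hU : ∀ p ∈ U, p.Prime) (hTU : Disjoint U T) (y : ℕ) :
    (∏ p ∈ U, (1 - 1 / (p : ℝ))) * sel_G (U ∪ T) y ≤ sel_G T y := by
  induction U using Finset.induction_on with
  | empty => simp
  | insert p U hpU ih =>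
    have hp : p.Prime := hU p (Finset.mem_insert_self _ _)
    rw [Finset.disjoint_insert_left] at hTU
    have ih' := ih (fun r hr => hU r (Finset.mem_insert_of_mem hr)) hTU.2
    have hpn : p ∉ U ∪ T := by
      rw [Finset.mem_union]
      rintro (h | h)
      · exact hpU h
      · exact hTU.1 h
    have h2 : (2 : ℝ) ≤ p := by exact_mod_cast hp.two_le
    have h3 : 1 / (p : ℝ) ≤ 1 / 2 := by
      apply one_div_le_one_div_of_le <;> linarith
    have h4 : 0 < 1 / (p : ℝ) := by positivity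
    rw [Finset.prod_insert hpU, Finset.insert_union, sel_G_rec hp hpn]
    have h5 : sel_G (U ∪ T) (y / p) ≤ sel_G (U ∪ T) y := sel_G_mono _ (Nat.div_le_self _ _)
    have h6 := mul_le_mul_of_nonneg_left h5 (sel_w_nonneg hp)
    have h7 : (1 - 1 / (p : ℝ)) * (sel_G (U ∪ T) y +
        (1 / (p : ℝ)) / (1 - 1 / (p : ℝ)) * sel_G (U ∪ T) y) = sel_G (U ∪ T) y := by
      have h11 : 1 - 1 / (p : ℝ) ≠ 0 := by
        have : 0 < 1 - 1 / (p : ℝ) := by linarith
        exact this.ne'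
      generalize 1 / (p : ℝ) = t at *
      field_simp
      ring
    have h8 : (1 - 1 / (p : ℝ)) * (sel_G (U ∪ T) y +
        (1 / (p : ℝ)) / (1 - 1 / (p : ℝ)) * sel_G (U ∪ T) (y / p)) ≤ sel_G (U ∪ T) y := by
      refine le_trans (mul_le_mul_of_nonneg_left (add_le_add le_rfl h6) ?_) h7.le
      linarith
    have h9 : 0 ≤ ∏ p ∈ U, (1 - 1 / (p : ℝ)) := by
      apply Finset.prod_nonneg
      intro r hr
      have h2' : (2 : ℝ) ≤ r := by
        exact_mod_cast (hU r (Finset.mem_insert_of_mem hr)).two_le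
      have h3' : 1 / (r : ℝ) ≤ 1 / 2 := by
        apply one_div_le_one_div_of_le <;> linarith
      linarith
    calc (1 - 1 / (p : ℝ)) * (∏ p ∈ U, (1 - 1 / (p : ℝ))) * (sel_G (U ∪ T) y +
          (1 / (p : ℝ)) / (1 - 1 / (p : ℝ)) * sel_G (U ∪ T) (y / p))
        = (∏ p ∈ U, (1 - 1 / (p : ℝ))) * ((1 - 1 / (p : ℝ)) * (sel_G (U ∪ T) y +
          (1 / (p : ℝ)) / (1 - 1 / (p : ℝ)) * sel_G (U ∪ T) (y / p))) := by ring
      _ ≤ (∏ p ∈ U, (1 - 1 / (p : ℝ))) * sel_G (U ∪ T) y := mul_le_mul_of_nonneg_left h8 h9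
      _ ≤ sel_G T y := ih'

/-- the primes up to `z` which do not divide `q` -/
noncomputable def sel_S (q : ℕ) (z : ℝ) : Finset ℕ :=
  (Finset.Icc 1 ⌊z⌋₊).filter fun p => p.Prime ∧ ¬ p ∣ q

theorem sel_mass (q : ℕ) (hq : 0 < q) (z : ℝ) (hz : 2 ≤ z) :
    (q.totient : ℝ) / q * Real.log z ≤ sel_G (sel_S q z) ⌊z⌋₊ := by
  classical
  set U : Finset ℕ := (Finset.Icc 1 ⌊z⌋₊).filter fun p => p.Prime ∧ p ∣ q with hU
  have hUS : U ∪ sel_S q z = (Finset.Icc 1 ⌊z⌋₊).filter Nat.Prime := by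
    ext p
    rw [Finset.mem_union, hU, sel_S, Finset.mem_filter, Finset.mem_filter, Finset.mem_filter]
    tauto
  have hdis : Disjoint U (sel_S q z) := by
    rw [Finset.disjoint_left]
    intro p hp hp'
    rw [hU, Finset.mem_filter] at hp
    rw [sel_S, Finset.mem_filter] at hp'
    exact hp'.2.2 hp.2.2
  have hUp : ∀ p ∈ U, p.Prime := fun p hp => by
    rw [hU, Finset.mem_filter] at hp
    exact hp.2.1
  have h1 := sel_G_union (sel_S q z) U hUp hdis ⌊z⌋₊
  rw [hUS] at h1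
  have h2 := sel_H_le_G ((Finset.Icc 1 ⌊z⌋₊).filter Nat.Prime)
    (fun p hp => (Finset.mem_filter.1 hp).2) ⌊z⌋₊
  have h3 : Real.log z ≤ sel_H ((Finset.Icc 1 ⌊z⌋₊).filter Nat.Prime) ⌊z⌋₊ := by
    have h4 := log_le_harmonic_floor z (by linarith)
    rw [harmonic_eq_sum_Icc] at h4
    push_cast at h4
    refine h4.trans (le_of_eq ?_)
    unfold sel_H
    rw [Finset.filter_true_of_mem]
    · exact Finset.sum_congr rfl fun n _ => (one_div _).symm
    · intro n hn p hp hpn
      rw [Finset.mem_Icc] at hn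
      rw [Finset.mem_filter, Finset.mem_Icc]
      exact ⟨⟨hp.one_lt.le, (Nat.le_of_dvd hn.1 hpn).trans hn.2⟩, hp⟩
  have hlog : 0 ≤ Real.log z := Real.log_nonneg (by linarith)
  -- the product over the primes of `q`
  have h5 : (q.totient : ℝ) / q ≤ ∏ p ∈ U, (1 - 1 / (p : ℝ)) := by
    have h6 : (q.totient : ℝ) = q * ∏ p ∈ q.primeFactors, (1 - (p : ℝ)⁻¹) := by
      have h7 := congrArg (fun t : ℚ => (t : ℝ)) (Nat.totient_eq_mul_prod_factors q)
      push_cast at h7
      exact h7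
    have hq' : (q : ℝ) ≠ 0 := by exact_mod_cast hq.ne'
    rw [h6, mul_div_cancel_left₀ _ hq']
    have hsub : U ⊆ q.primeFactors := by
      intro p hp
      rw [hU, Finset.mem_filter] at hp
      exact Nat.mem_primeFactors.2 ⟨hp.2.1, hp.2.2, hq.ne'⟩
    have hb : ∀ p ∈ q.primeFactors, 0 ≤ 1 - (p : ℝ)⁻¹ ∧ 1 - (p : ℝ)⁻¹ ≤ 1 := by
      intro p hp
      have hp' := Nat.prime_of_mem_primeFactors hp
      have h2' : (2 : ℝ) ≤ p := by exact_mod_cast hp'.two_le
      have h3' : (p : ℝ)⁻¹ ≤ 1 := inv_le_one_of_one_le₀ (by linarith)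
      have h4' : 0 ≤ (p : ℝ)⁻¹ := by positivity
      constructor <;> linarith
    rw [← Finset.prod_sdiff hsub]
    have h7 : ∏ p ∈ q.primeFactors \ U, (1 - (p : ℝ)⁻¹) ≤ 1 :=
      Finset.prod_le_one (fun p hp => (hb p (Finset.mem_sdiff.1 hp).1).1)
        (fun p hp => (hb p (Finset.mem_sdiff.1 hp).1).2)
    have h8 : 0 ≤ ∏ p ∈ U, (1 - (p : ℝ)⁻¹) :=
      Finset.prod_nonneg fun p hp => (hb p (hsub hp)).1
    have h9 : ∏ p ∈ U, (1 - 1 / (p : ℝ)) = ∏ p ∈ U, (1 - (p : ℝ)⁻¹) :=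
      Finset.prod_congr rfl fun p _ => by rw [one_div]
    rw [h9]
    exact mul_le_of_le_one_left h8 h7
  have h10 : 0 ≤ ∏ p ∈ U, (1 - 1 / (p : ℝ)) := le_trans (by positivity) h5
  calc (q.totient : ℝ) / q * Real.log z ≤ (∏ p ∈ U, (1 - 1 / (p : ℝ))) * Real.log z :=
        mul_le_mul_of_nonneg_right h5 hlog
    _ ≤ (∏ p ∈ U, (1 - 1 / (p : ℝ))) * sel_G ((Finset.Icc 1 ⌊z⌋₊).filter Nat.Prime) ⌊z⌋₊ :=
        mul_le_mul_of_nonneg_left (h3.trans h2) h10
    _ ≤ _ := h1

/-! ### the sieve -/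

open Classical in
theorem rough_ap (q a : ℕ) (hq : 0 < q) (ha : a.Coprime q) (z X : ℝ) (hz : 2 ≤ z) (hX : 0 ≤ X) :
    (((Finset.Icc 1 ⌊X⌋₊).filter (fun k => k ≡ a [MOD q] ∧ Rough z k)).card : ℝ) ≤
      X / (q.totient * Real.log z) + z ^ 6 := by
  have hS : ∀ p ∈ sel_S q z, p.Prime := fun p hp => (Finset.mem_filter.1 hp).2.1
  have hh : ∀ p ∈ sel_S q z, 0 < (fun p : ℕ => 1 / (p : ℝ)) p ∧
      (fun p : ℕ => 1 / (p : ℝ)) p < 1 := by
    intro p hp
    have h2 : (2 : ℝ) ≤ p := by exact_mod_cast (hS p hp).two_le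
    have h3 : 1 / (p : ℝ) ≤ 1 / 2 := by
      apply one_div_le_one_div_of_le <;> linarith
    refine ⟨by positivity, ?_⟩
    show 1 / (p : ℝ) < 1
    linarith
  obtain ⟨θ, t1, t2, t3, t4, t5⟩ := Pool.Agent.T2.selberg_weights (sel_S q z) hS
    (fun p : ℕ => 1 / (p : ℝ)) hh z (by linarith)
  set D := ⌊z ^ 2⌋₊ with hD
  set N := ⌊X⌋₊ with hN
  have hqr : (0 : ℝ) < q := by exact_mod_cast hq
  have hlog : 0 < Real.log z := Real.log_pos (by linarith)
  have htot : (0 : ℝ) < q.totient := by exact_mod_cast Nat.totient_pos.2 hq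
  -- the sum over the divisors
  have hdiv : ∀ k : ℕ, 1 ≤ k → ∑ d ∈ k.divisors, θ d =
      ∑ d ∈ Finset.Icc 1 D, if d ∣ k then θ d else 0 := by
    intro k hk
    rw [← Finset.sum_filter]
    have e1 : ∑ d ∈ k.divisors, θ d = ∑ d ∈ k.divisors.filter (fun d => θ d ≠ 0), θ d := by
      rw [Finset.sum_filter_ne_zero]
    have e2 : ∑ d ∈ (Finset.Icc 1 D).filter (fun d => d ∣ k), θ d =
        ∑ d ∈ ((Finset.Icc 1 D).filter (fun d => d ∣ k)).filter (fun d => θ d ≠ 0), θ d := by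
      rw [Finset.sum_filter_ne_zero]
    rw [e1, e2]
    congr 1
    ext d
    rw [Finset.mem_filter, Finset.mem_filter, Finset.mem_filter, Finset.mem_Icc, Nat.mem_divisors]
    constructor
    · rintro ⟨⟨h1, h2⟩, h3⟩
      refine ⟨⟨⟨Nat.pos_of_dvd_of_pos h1 hk, ?_⟩, h1⟩, h3⟩
      exact Nat.le_floor (t1 d h3).2.2
    · rintro ⟨⟨⟨h1, h2⟩, h3⟩, h4⟩
      exact ⟨⟨h3, by omega⟩, h4⟩
  -- rough numbers
  have hrough : ∀ k : ℕ, 1 ≤ k → Rough z k → ∑ d ∈ k.divisors, θ d = 1 := by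
    intro k hk hr
    rw [Finset.sum_eq_single 1, t3]
    · intro d hd hd1
      by_contra h0
      obtain ⟨p, hp, hpd⟩ := Nat.exists_prime_and_dvd hd1
      have h1 := (t1 d h0).2.1 p hp hpd
      have h2 := hr p hp (hpd.trans (Nat.dvd_of_mem_divisors hd))
      rw [sel_S, Finset.mem_filter, Finset.mem_Icc] at h1
      have h3 : (p : ℝ) ≤ z := (Nat.le_floor_iff (by linarith)).1 h1.1.2
      linarith
    · intro h
      exact absurd (Nat.one_mem_divisors.2 (by omega)) h
  have hcard : (((Finset.Icc 1 N).filter (fun k => k ≡ a [MOD q] ∧ Rough z k)).card : ℝ) ≤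
      ∑ k ∈ (Finset.Icc 1 N).filter (fun k => k ≡ a [MOD q]), ∑ d ∈ k.divisors, θ d := by
    have e : (Finset.Icc 1 N).filter (fun k => k ≡ a [MOD q] ∧ Rough z k) =
        ((Finset.Icc 1 N).filter (fun k => k ≡ a [MOD q])).filter (fun k => Rough z k) := by
      rw [Finset.filter_filter]
    rw [e]
    calc ((((Finset.Icc 1 N).filter (fun k => k ≡ a [MOD q])).filter
          (fun k => Rough z k)).card : ℝ)
        = ∑ k ∈ ((Finset.Icc 1 N).filter (fun k => k ≡ a [MOD q])).filter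
          (fun k => Rough z k), ∑ d ∈ k.divisors, θ d := by
          rw [Finset.card_eq_sum_ones, Nat.cast_sum]
          refine Finset.sum_congr rfl fun k hk => ?_
          rw [Finset.mem_filter, Finset.mem_filter, Finset.mem_Icc] at hk
          rw [hrough k hk.1.1.1 hk.2]
          simp
      _ ≤ _ := by
          apply Finset.sum_le_sum_of_subset_of_nonneg (Finset.filter_subset _ _)
          intro k hk _
          rw [Finset.mem_filter, Finset.mem_Icc] at hk
          exact t4 k hk.1.1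
  -- exchange
  have hex : ∑ k ∈ (Finset.Icc 1 N).filter (fun k => k ≡ a [MOD q]), ∑ d ∈ k.divisors, θ d =
      ∑ d ∈ Finset.Icc 1 D, θ d *
        (((Finset.Icc 1 N).filter (fun k => k ≡ a [MOD q] ∧ d ∣ k)).card : ℝ) := by
    have e1 : ∑ k ∈ (Finset.Icc 1 N).filter (fun k => k ≡ a [MOD q]), ∑ d ∈ k.divisors, θ d =
        ∑ k ∈ (Finset.Icc 1 N).filter (fun k => k ≡ a [MOD q]),
          ∑ d ∈ Finset.Icc 1 D, if d ∣ k then θ d else 0 := by
      refine Finset.sum_congr rfl fun k hk => ?_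
      rw [Finset.mem_filter, Finset.mem_Icc] at hk
      exact hdiv k hk.1.1
    rw [e1, Finset.sum_comm]
    refine Finset.sum_congr rfl fun d _ => ?_
    rw [← Finset.sum_filter, Finset.sum_const, Finset.filter_filter, nsmul_eq_mul, mul_comm]
  -- one divisor
  have hone : ∀ d ∈ Finset.Icc 1 D, θ d *
      (((Finset.Icc 1 N).filter (fun k => k ≡ a [MOD q] ∧ d ∣ k)).card : ℝ) ≤
      X / q * (θ d * ∏ p ∈ d.primeFactors, 1 / (p : ℝ)) + (d : ℝ) ^ 2 := by
    intro d hd
    rw [Finset.mem_Icc] at hd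
    by_cases h0 : θ d = 0
    · rw [h0]
      simp only [zero_mul, mul_zero, zero_add]
      positivity
    · obtain ⟨s1, s2, s3⟩ := t1 d h0
      have hd0 : (0 : ℝ) < d := by exact_mod_cast hd.1
      have hprod : ∏ p ∈ d.primeFactors, (1 : ℝ) / (p : ℝ) = 1 / d := by
        rw [Finset.prod_div_distrib, Finset.prod_const_one]
        congr 1
        have h7 := congrArg (fun t : ℕ => (t : ℝ)) (Nat.prod_primeFactors_of_squarefree s1)
        push_cast at h7
        exact h7
      have hco : d.Coprime q := by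
        rw [Nat.coprime_iff_gcd_eq_one] 
        by_contra hg
        obtain ⟨p, hp, hpg⟩ := Nat.exists_prime_and_dvd hg
        have h1 := s2 p hp (hpg.trans (Nat.gcd_dvd_left _ _))
        rw [sel_S, Finset.mem_filter] at h1
        exact h1.2.2 (hpg.trans (Nat.gcd_dvd_right _ _))
      obtain ⟨c, hc1, hc2⟩ := Nat.chineseRemainder hco 0 a
      have hfil : (Finset.Icc 1 N).filter (fun k => k ≡ a [MOD q] ∧ d ∣ k) =
          (Finset.Icc 1 N).filter (fun k => k ≡ c [MOD d * q]) := by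
        refine Finset.filter_congr fun k _ => ?_
        rw [← Nat.modEq_and_modEq_iff_modEq_mul hco]
        constructor
        · rintro ⟨h1, h2⟩
          exact ⟨((Nat.modEq_zero_iff_dvd.2 h2)).trans hc1.symm, h1.trans hc2.symm⟩
        · rintro ⟨h1, h2⟩
          exact ⟨h2.trans hc2, Nat.modEq_zero_iff_dvd.1 (h1.trans hc1)⟩
      have hcnt := sel_count' X hX (d * q) c (Nat.mul_pos hd.1 hq)
      have hθ : |θ d| ≤ (d : ℝ) ^ 2 := by
        refine (t2 d).trans ?_
        have h1 : (3 : ℝ) ^ d.primeFactors.card ≤ ∏ p ∈ d.primeFactors, (p : ℝ) ^ 2 := by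
          rw [← Finset.prod_const]
          apply Finset.prod_le_prod
          · intro p _
            norm_num
          · intro p hp
            have h2 : (2 : ℝ) ≤ p := by
              exact_mod_cast (Nat.prime_of_mem_primeFactors hp).two_le
            nlinarith
        refine h1.trans (le_of_eq ?_)
        rw [Finset.prod_pow]
        congr 1
        have h7 := congrArg (fun t : ℕ => (t : ℝ)) (Nat.prod_primeFactors_of_squarefree s1)
        push_cast at h7
        exact h7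
      rw [hfil, hprod]
      set cc := (((Finset.Icc 1 N).filter (fun k => k ≡ c [MOD d * q])).card : ℝ) with hcc
      have e1 : θ d * cc = X / q * (θ d * (1 / d)) + θ d * (cc - X / ((d * q : ℕ) : ℝ)) := by
        push_cast
        field_simp
        ring
      have e2 : θ d * (cc - X / ((d * q : ℕ) : ℝ)) ≤ (d : ℝ) ^ 2 := by
        calc θ d * (cc - X / ((d * q : ℕ) : ℝ)) ≤ |θ d * (cc - X / ((d * q : ℕ) : ℝ))| :=
              le_abs_self _
          _ = |θ d| * |cc - X / ((d * q : ℕ) : ℝ)| := abs_mul _ _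
          _ ≤ (d : ℝ) ^ 2 * 1 :=
              mul_le_mul hθ hcnt (abs_nonneg _) (by positivity)
          _ = (d : ℝ) ^ 2 := mul_one _
      linarith
  -- the main term
  have hmain : X / q * ∑ d ∈ Finset.Icc 1 D, θ d * ∏ p ∈ d.primeFactors, 1 / (p : ℝ) ≤
      X / (q.totient * Real.log z) := by
    have hG : ∑ d ∈ (Finset.Icc 1 ⌊z⌋₊).filter (fun d : ℕ => Squarefree d ∧
        ∀ p : ℕ, p.Prime → p ∣ d → p ∈ sel_S q z), ∏ p ∈ d.primeFactors,
          (1 / (p : ℝ)) / (1 - 1 / (p : ℝ)) = sel_G (sel_S q z) ⌊z⌋₊ := by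
      unfold sel_G
      refine Finset.sum_congr ?_ fun _ _ => rfl
      ext d
      simp only [Finset.mem_filter]
    have hm := sel_mass q hq z hz
    have hpos : 0 < (q.totient : ℝ) / q * Real.log z := by positivity
    have h1 : ∑ d ∈ Finset.Icc 1 D, θ d * ∏ p ∈ d.primeFactors, 1 / (p : ℝ) ≤
        1 / ((q.totient : ℝ) / q * Real.log z) := by
      refine t5.trans ?_
      rw [hG]
      exact one_div_le_one_div_of_le hpos hm
    refine (mul_le_mul_of_nonneg_left h1 (by positivity)).trans (le_of_eq ?_)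
    field_simp
  have herr : ∑ d ∈ Finset.Icc 1 D, (d : ℝ) ^ 2 ≤ z ^ 6 := by
    have hDz : (D : ℝ) ≤ z ^ 2 := Nat.floor_le (by positivity)
    calc ∑ d ∈ Finset.Icc 1 D, (d : ℝ) ^ 2 ≤ ∑ d ∈ Finset.Icc 1 D, (D : ℝ) ^ 2 := by
          apply Finset.sum_le_sum
          intro d hd
          rw [Finset.mem_Icc] at hd
          have : (d : ℝ) ≤ D := by exact_mod_cast hd.2
          gcongr
      _ = (D : ℝ) ^ 3 := by
          rw [Finset.sum_const, Nat.card_Icc, nsmul_eq_mul, Nat.add_sub_cancel]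
          ring
      _ ≤ (z ^ 2) ^ 3 := by gcongr
      _ = z ^ 6 := by ring
  calc (((Finset.Icc 1 N).filter (fun k => k ≡ a [MOD q] ∧ Rough z k)).card : ℝ)
      ≤ ∑ d ∈ Finset.Icc 1 D, θ d *
        (((Finset.Icc 1 N).filter (fun k => k ≡ a [MOD q] ∧ d ∣ k)).card : ℝ) := by
        rw [← hex]; exact hcard
    _ ≤ ∑ d ∈ Finset.Icc 1 D, (X / q * (θ d * ∏ p ∈ d.primeFactors, 1 / (p : ℝ)) +
        (d : ℝ) ^ 2) := Finset.sum_le_sum hone
    _ = X / q * ∑ d ∈ Finset.Icc 1 D, θ d * ∏ p ∈ d.primeFactors, 1 / (p : ℝ) +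
        ∑ d ∈ Finset.Icc 1 D, (d : ℝ) ^ 2 := by
        rw [Finset.sum_add_distrib, Finset.mul_sum]
    _ ≤ _ := add_le_add hmain herr

end Pool.Agent.AAO
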