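import Pool.Agent.Lib_helper65.AAOF.CLS
import Pool.Agent.Lib_helper65.AAOF.RNK
import Pool.Agent.Lib_helper65.AAOF.DEC

/-! # AAO, block STP: one step -/

set_option autoImplicit false

namespace Pool.Agent.AAO

open Finset

private theorem stp_wt_nonneg (j n : ℕ) : 0 ≤ wt j n := by
  unfold wt
  positivity

private theorem stp_wt_le (j n : ℕ) : wt j n ≤ 1 := by
  unfold wt
  exact pow_le_one₀ (by norm_num) (by norm_num)

private theorem stp_wt_succ (j n : ℕ) : wt (j + 1) n = wt j n * (1 / 2) ^ n.primeFactors.card := by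
  unfold wt
  rw [Nat.add_mul, one_mul, pow_add]

private theorem stp_W_one : W 1 :=
  ⟨odd_one, fun _ _ hp _ hd _ _ => absurd (Nat.dvd_one.1 hd) hp.one_lt.ne'⟩

open Classical in
private theorem stp_A_ge (j I : ℕ) : 1 ≤ A j I := by
  unfold A
  have h1 : (1 : ℕ) ∈ (Finset.Icc 1 (2 ^ I)).filter W := by
    rw [mem_filter, mem_Icc]
    exact ⟨⟨le_rfl, Nat.one_le_two_pow⟩, stp_W_one⟩
  have h2 := Finset.single_le_sum (f := fun n : ℕ => wt j n / (n : ℝ))
    (fun n _ => div_nonneg (stp_wt_nonneg j n) (Nat.cast_nonneg n)) h1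
  have h3 : wt j 1 / ((1 : ℕ) : ℝ) = 1 := by simp [wt]
  exact h3.symm.le.trans h2

open Classical in
/-- the multiples `n` of `m` with `W n` and rough cofactor -/
private noncomputable def stpT (z : ℝ) (I m : ℕ) : Finset ℕ :=
  (Finset.Icc 1 (2 ^ I)).filter (fun n => W n ∧ m ∣ n ∧ Rough z (n / m))

open Classical in
private theorem stp_mem {z : ℝ} {I m n : ℕ} : n ∈ stpT z I m ↔
    (1 ≤ n ∧ n ≤ 2 ^ I) ∧ W n ∧ m ∣ n ∧ Rough z (n / m) := by
  unfold stpT
  rw [mem_filter, mem_Icc]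

open Classical in
private theorem stp_swap (z : ℝ) (j I : ℕ) :
    S j I ≤ ∑ m ∈ (Finset.Icc 1 (2 ^ I)).filter (Smooth z), wt j m * ((stpT z I m).card : ℝ) := by
  unfold S
  have h1 : ∀ n ∈ (Finset.Icc 1 (2 ^ I)).filter W, wt j n ≤
      ∑ m ∈ (Finset.Icc 1 (2 ^ I)).filter (Smooth z), if n ∈ stpT z I m then wt j m else 0 := by
    intro n hn
    rw [mem_filter, mem_Icc] at hn
    have hn0 : n ≠ 0 := by omega
    obtain ⟨m, k, hmk, hm, hk⟩ := exists_decomp z n hn0
    have hm0 : m ≠ 0 := by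
      rintro rfl
      rw [zero_mul] at hmk
      exact hn0 hmk
    have hk0 : k ≠ 0 := by
      rintro rfl
      rw [mul_zero] at hmk
      exact hn0 hmk
    have hmI : m ∈ (Finset.Icc 1 (2 ^ I)).filter (Smooth z) := by
      rw [mem_filter, mem_Icc]
      refine ⟨⟨Nat.pos_of_ne_zero hm0, ?_⟩, hm⟩
      calc m ≤ m * k := Nat.le_mul_of_pos_right _ (Nat.pos_of_ne_zero hk0)
        _ = n := hmk.symm
        _ ≤ _ := hn.1.2
    have hT : n ∈ stpT z I m := by
      rw [stp_mem]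
      refine ⟨hn.1, hn.2, ⟨k, hmk⟩, ?_⟩
      rw [hmk, Nat.mul_div_cancel_left _ (Nat.pos_of_ne_zero hm0)]
      exact hk
    have h2 := Finset.single_le_sum (f := fun m => if n ∈ stpT z I m then wt j m else 0)
      (s := (Finset.Icc 1 (2 ^ I)).filter (Smooth z)) (fun m _ => by
        split_ifs
        exacts [stp_wt_nonneg _ _, le_rfl]) hmI
    have h4 : wt j m ≤ ∑ m ∈ (Finset.Icc 1 (2 ^ I)).filter (Smooth z),
        if n ∈ stpT z I m then wt j m else 0 := by
      refine le_trans (le_of_eq ?_) h2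
      rw [if_pos hT]
    have h3 : wt j n ≤ wt j m := by
      rw [hmk]
      exact wt_decomp z j m k hm hk (Nat.mul_ne_zero hm0 hk0)
    exact h3.trans h4
  refine (Finset.sum_le_sum h1).trans ?_
  rw [Finset.sum_comm]
  refine Finset.sum_le_sum fun m _ => ?_
  rw [← Finset.sum_filter, Finset.sum_const, nsmul_eq_mul, mul_comm]
  refine mul_le_mul_of_nonneg_left ?_ (stp_wt_nonneg j m)
  exact_mod_cast Finset.card_le_card (fun n hn => (mem_filter.1 hn).2)

private theorem stp_inj {z : ℝ} {I m : ℕ} :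
    Set.InjOn (fun n => n / m) (stpT z I m : Set ℕ) := by
  intro n hn n' hn' h
  have h1 := (stp_mem.1 hn).2.2.1
  have h2 := (stp_mem.1 hn').2.2.1
  have h3 : n / m = n' / m := h
  rw [← Nat.mul_div_cancel' h1, ← Nat.mul_div_cancel' h2, h3]

private theorem stp_quot {z : ℝ} {I m n : ℕ} (hm : 1 ≤ m) (hn : n ∈ stpT z I m) :
    1 ≤ n / m ∧ n / m ≤ 2 ^ I / m := by
  obtain ⟨⟨h1, h2⟩, _, h3, _⟩ := stp_mem.1 hn
  exact ⟨Nat.div_pos (Nat.le_of_dvd (by omega) h3) (by omega), Nat.div_le_div_right h2⟩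

private theorem stp_card_triv (z : ℝ) (I m : ℕ) (hm : 1 ≤ m) :
    ((stpT z I m).card : ℝ) ≤ 2 ^ I / m := by
  have h1 : (stpT z I m).card ≤ (Finset.Icc 1 (2 ^ I / m)).card := by
    refine Finset.card_le_card_of_injOn (fun n => n / m) (fun n hn => ?_) stp_inj
    rw [Finset.mem_coe, mem_Icc]
    exact stp_quot hm hn
  rw [Nat.card_Icc, Nat.add_sub_cancel] at h1
  calc ((stpT z I m).card : ℝ) ≤ ((2 ^ I / m : ℕ) : ℝ) := by exact_mod_cast h1
    _ ≤ ((2 ^ I : ℕ) : ℝ) / m := Nat.cast_div_le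
    _ = 2 ^ I / m := by push_cast; rfl

open Classical in
private theorem stp_card_sq (z : ℝ) (I m : ℕ) (hz : 2 ≤ z) (hm : 1 ≤ m) (hs : Smooth z m)
    (hne : (stpT z I m).Nonempty) : W m ∧ ((stpT z I m).card : ℝ) ≤
      (1 / 2) ^ m.primeFactors.card * (2 ^ I / m / Real.log z) + m * z ^ 6 := by
  have key : ∀ n ∈ stpT z I m, W m ∧ ∀ p ∈ m.primeFactors, IsSquare ((n / m : ℕ) : ZMod p) := by
    intro n hn
    obtain ⟨_, h2, h3, h4⟩ := stp_mem.1 hn
    refine W_decomp z m (n / m) hs h4 ?_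
    rwa [Nat.mul_div_cancel' h3]
  obtain ⟨n₀, hn₀⟩ := hne
  have hW := (key n₀ hn₀).1
  refine ⟨hW, ?_⟩
  have hmr : (0 : ℝ) < m := by exact_mod_cast hm
  have h1 := rough_sq m.primeFactors z (2 ^ I / m) hz (by positivity) (fun p hp => by
    have hp1 := Nat.prime_of_mem_primeFactors hp
    have hp2 := Nat.dvd_of_mem_primeFactors hp
    refine ⟨hp1, ?_, hs p hp1 hp2⟩
    rintro rfl
    exact (Nat.not_even_iff_odd.2 hW.1) (even_iff_two_dvd.2 hp2))
  have h2 : (stpT z I m).card ≤ ((Finset.Icc 1 ⌊(2 : ℝ) ^ I / m⌋₊).filter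
      (fun k => (∀ p ∈ m.primeFactors, IsSquare (k : ZMod p)) ∧ Rough z k)).card := by
    refine Finset.card_le_card_of_injOn (fun n => n / m) (fun n hn => ?_) stp_inj
    rw [Finset.mem_coe, mem_filter, mem_Icc]
    have h3 := stp_quot hm hn
    refine ⟨⟨h3.1, Nat.le_floor ?_⟩, (key n hn).2, (stp_mem.1 hn).2.2.2⟩
    calc (((n / m : ℕ) : ℕ) : ℝ) ≤ ((2 ^ I / m : ℕ) : ℝ) := by exact_mod_cast h3.2
      _ ≤ ((2 ^ I : ℕ) : ℝ) / m := Nat.cast_div_le
      _ = 2 ^ I / m := by push_cast; rfl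
  have h4 : ((∏ p ∈ m.primeFactors, p : ℕ) : ℝ) ≤ m := by
    exact_mod_cast Nat.le_of_dvd hm (Nat.prod_primeFactors_dvd m)
  have h5 : (0 : ℝ) ≤ z ^ 6 := by positivity
  calc ((stpT z I m).card : ℝ) ≤ _ := by exact_mod_cast h2
    _ ≤ _ := h1
    _ ≤ (1 / 2) ^ m.primeFactors.card * (2 ^ I / m / Real.log z) + m * z ^ 6 :=
        add_le_add le_rfl (mul_le_mul_of_nonneg_right h4 h5)

open Classical in
private theorem stp_small (z : ℝ) (j I m : ℕ) (hz : 2 ≤ z) (hm : 1 ≤ m) (hs : Smooth z m)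
    (t : ℝ) (ht : (m : ℝ) ≤ t) :
    wt j m * ((stpT z I m).card : ℝ) ≤
      (if W m then wt (j + 1) m / m else 0) * (2 ^ I / Real.log z) + t * z ^ 6 := by
  have hmr : (0 : ℝ) < m := by exact_mod_cast hm
  have hlog : 0 < Real.log z := Real.log_pos (by linarith)
  have h5 : (0 : ℝ) ≤ z ^ 6 := by positivity
  have h6 : 0 ≤ t * z ^ 6 := mul_nonneg (by linarith) h5
  rcases (stpT z I m).eq_empty_or_nonempty with h | h
  · rw [h, card_empty, Nat.cast_zero, mul_zero]
    refine add_nonneg (mul_nonneg ?_ (by positivity)) h6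
    split_ifs
    · exact div_nonneg (stp_wt_nonneg _ _) hmr.le
    · exact le_rfl
  · obtain ⟨h1, h2⟩ := stp_card_sq z I m hz hm hs h
    rw [if_pos h1]
    calc wt j m * ((stpT z I m).card : ℝ) ≤ wt j m *
          ((1 / 2) ^ m.primeFactors.card * (2 ^ I / m / Real.log z) + m * z ^ 6) :=
          mul_le_mul_of_nonneg_left h2 (stp_wt_nonneg j m)
      _ = wt (j + 1) m / m * (2 ^ I / Real.log z) + wt j m * (m * z ^ 6) := by
          rw [stp_wt_succ]
          field_simp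
      _ ≤ wt (j + 1) m / m * (2 ^ I / Real.log z) + 1 * (t * z ^ 6) := by
          refine add_le_add le_rfl (mul_le_mul (stp_wt_le j m)
            (mul_le_mul_of_nonneg_right ht h5) (mul_nonneg hmr.le h5) zero_le_one)
      _ = _ := by rw [one_mul]

open Classical in
private theorem stp_count (t : ℝ) (ht : 0 ≤ t) (G : Finset ℕ)
    (hG : ∀ m ∈ G, 1 ≤ m ∧ (m : ℝ) ≤ t) : (G.card : ℝ) ≤ t := by
  have h1 : G ⊆ Finset.Icc 1 ⌊t⌋₊ := fun m hm => by
    rw [mem_Icc]
    exact ⟨(hG m hm).1, Nat.le_floor (hG m hm).2⟩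
  have h2 := Finset.card_le_card h1
  rw [Nat.card_Icc, Nat.add_sub_cancel] at h2
  calc (G.card : ℝ) ≤ (⌊t⌋₊ : ℝ) := by exact_mod_cast h2
    _ ≤ t := Nat.floor_le ht

open Classical in
private theorem stp_total (K C : ℝ) (j I : ℕ) (hz : 2 ≤ zz K I)
    (hT : ∑ m ∈ (Finset.Icc 1 (2 ^ I)).filter
      (fun m : ℕ => (2 : ℝ) ^ ((I : ℝ) / 4) < m ∧ Smooth (zz K I) m), (1 : ℝ) / m ≤ C / I) :
    S j I ≤ 2 ^ I * (C / I) + (A (j + 1) I * (2 ^ I / Real.log (zz K I)) +
      (2 : ℝ) ^ ((I : ℝ) / 4) * ((2 : ℝ) ^ ((I : ℝ) / 4) * zz K I ^ 6)) := by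
  set z := zz K I with hzd
  set t : ℝ := (2 : ℝ) ^ ((I : ℝ) / 4) with htd
  have ht0 : 0 ≤ t := by positivity
  have hlog : 0 < Real.log z := Real.log_pos (by linarith)
  refine (stp_swap z j I).trans ?_
  rw [← Finset.sum_filter_add_sum_filter_not ((Finset.Icc 1 (2 ^ I)).filter (Smooth z))
    (fun m : ℕ => t < (m : ℝ))]
  refine add_le_add ?_ ?_
  · -- the large `m`
    calc ∑ m ∈ ((Finset.Icc 1 (2 ^ I)).filter (Smooth z)).filter (fun m : ℕ => t < (m : ℝ)),
          wt j m * ((stpT z I m).card : ℝ) ≤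
          ∑ m ∈ ((Finset.Icc 1 (2 ^ I)).filter (Smooth z)).filter (fun m : ℕ => t < (m : ℝ)),
          2 ^ I * ((1 : ℝ) / m) := by
          refine Finset.sum_le_sum fun m hm => ?_
          rw [mem_filter, mem_filter, mem_Icc] at hm
          have h1 := stp_card_triv z I m hm.1.1.1
          calc wt j m * ((stpT z I m).card : ℝ) ≤ 1 * (2 ^ I / m) :=
                mul_le_mul (stp_wt_le j m) h1 (Nat.cast_nonneg _) zero_le_one
            _ = 2 ^ I * ((1 : ℝ) / m) := by ring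
      _ = 2 ^ I * ∑ m ∈ ((Finset.Icc 1 (2 ^ I)).filter (Smooth z)).filter
          (fun m : ℕ => t < (m : ℝ)), ((1 : ℝ) / m) := by rw [mul_sum]
      _ ≤ 2 ^ I * (C / I) := by
          refine mul_le_mul_of_nonneg_left (le_trans ?_ hT) (by positivity)
          refine Finset.sum_le_sum_of_subset_of_nonneg (fun m hm => ?_) (fun m _ _ => by positivity)
          rw [mem_filter, mem_filter] at hm
          rw [mem_filter]
          exact ⟨hm.1.1, hm.2, hm.1.2⟩
  · -- the small `m`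
    set G := ((Finset.Icc 1 (2 ^ I)).filter (Smooth z)).filter (fun m : ℕ => ¬t < (m : ℝ)) with hGd
    have hG : ∀ m ∈ G, 1 ≤ m ∧ (m : ℝ) ≤ t ∧ m ≤ 2 ^ I ∧ Smooth z m := by
      intro m hm
      rw [hGd, mem_filter, mem_filter, mem_Icc] at hm
      exact ⟨hm.1.1.1, not_lt.1 hm.2, hm.1.1.2, hm.1.2⟩
    calc ∑ m ∈ G, wt j m * ((stpT z I m).card : ℝ) ≤
          ∑ m ∈ G, ((if W m then wt (j + 1) m / m else 0) * (2 ^ I / Real.log z) + t * z ^ 6) :=
          Finset.sum_le_sum fun m hm => stp_small z j I m hz (hG m hm).1 (hG m hm).2.2.2 t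
            (hG m hm).2.1
      _ = (∑ m ∈ G, if W m then wt (j + 1) m / m else 0) * (2 ^ I / Real.log z) +
          (G.card : ℝ) * (t * z ^ 6) := by
          rw [Finset.sum_add_distrib, ← Finset.sum_mul, Finset.sum_const, nsmul_eq_mul]
      _ ≤ A (j + 1) I * (2 ^ I / Real.log z) + t * (t * z ^ 6) := by
          refine add_le_add (mul_le_mul_of_nonneg_right ?_ (by positivity))
            (mul_le_mul_of_nonneg_right ?_ (by positivity))
          · rw [← Finset.sum_filter]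
            unfold A
            refine Finset.sum_le_sum_of_subset_of_nonneg (fun m hm => ?_)
              (fun m _ _ => div_nonneg (stp_wt_nonneg _ _) (Nat.cast_nonneg m))
            rw [mem_filter] at hm
            rw [mem_filter, mem_Icc]
            exact ⟨⟨(hG m hm.1).1, (hG m hm.1).2.2.1⟩, hm.2⟩
          · exact stp_count t ht0 G fun m hm => ⟨(hG m hm).1, (hG m hm).2.1⟩

open Classical in
theorem step : ∃ C : ℝ, 0 < C ∧ ∀ j I : ℕ, 1 ≤ I →
    S j I ≤ C * 2 ^ I * (Real.log (I + 2) / I) * A (j + 1) I := by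
  obtain ⟨K₀, hK₀, hK⟩ := smooth_tail
  obtain ⟨C, hC, ht⟩ := hK (max K₀ 40) (le_max_left _ _)
  have hK40 : (40 : ℝ) ≤ max K₀ 40 := le_max_right _ _
  generalize max K₀ 40 = K at hK40 ht
  refine ⟨C + K + 6, by linarith, ?_⟩
  intro j I hI
  have hIr : (1 : ℝ) ≤ I := by exact_mod_cast hI
  have hI0 : (0 : ℝ) < I := by linarith
  set L := Real.log ((I : ℝ) + 2) with hL
  have hL1 : 1 ≤ L := by
    rw [hL, Real.le_log_iff_exp_le (by linarith)]
    have := Real.exp_one_lt_d9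
    linarith
  have hA := stp_A_ge (j + 1) I
  have hKL : 0 < K * L := by positivity
  have hLI : 0 < L / I := by positivity
  have h2I : (0 : ℝ) < 2 ^ I := by positivity
  by_cases hz : zz K I < 2
  · have h1 : S j I ≤ 2 ^ I := by
      unfold S
      calc ∑ n ∈ (Finset.Icc 1 (2 ^ I)).filter W, wt j n ≤
            ∑ n ∈ (Finset.Icc 1 (2 ^ I)).filter W, (1 : ℝ) :=
            Finset.sum_le_sum fun n _ => stp_wt_le j n
        _ = (((Finset.Icc 1 (2 ^ I)).filter W).card : ℝ) := by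
            rw [Finset.sum_const, nsmul_eq_mul, mul_one]
        _ ≤ ((Finset.Icc 1 (2 ^ I)).card : ℝ) := by
            exact_mod_cast Finset.card_filter_le _ _
        _ = 2 ^ I := by
            rw [Nat.card_Icc, Nat.add_sub_cancel]
            push_cast
            rfl
    have h2 : (I : ℝ) ≤ K * L := by
      by_contra hcon
      rw [not_le] at hcon
      have h3 : 1 ≤ (I : ℝ) / (K * L) := (one_le_div hKL).2 hcon.le
      have h4 : Real.exp 1 ≤ zz K I := Real.exp_le_exp.2 h3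
      have h5 := Real.add_one_le_exp (1 : ℝ)
      linarith
    have h3 : 1 ≤ K * (L / I) := by
      rw [← mul_div_assoc, one_le_div hI0]
      exact h2
    calc S j I ≤ 2 ^ I := h1
      _ = 1 * 2 ^ I * 1 := by ring
      _ ≤ (K * (L / I)) * 2 ^ I * A (j + 1) I := by gcongr
      _ ≤ ((C + K + 6) * (L / I)) * 2 ^ I * A (j + 1) I := by
          gcongr
          linarith
      _ = (C + K + 6) * 2 ^ I * (L / I) * A (j + 1) I := by ring
  · rw [not_lt] at hz
    have h1 := stp_total K C j I hz (ht I hI)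
    have hlog : Real.log (zz K I) = I / (K * L) := by
      unfold zz
      rw [Real.log_exp]
    set t : ℝ := (2 : ℝ) ^ ((I : ℝ) / 4) with htd
    have ht0 : 0 < t := by positivity
    have ht4 : t ^ 4 = 2 ^ I := by
      rw [htd, ← Real.rpow_natCast ((2 : ℝ) ^ ((I : ℝ) / 4)) 4, ← Real.rpow_mul (by norm_num),
        ← Real.rpow_natCast 2 I]
      congr 1
      push_cast
      ring
    have hte : t = Real.exp (Real.log 2 * (I / 4)) := by
      rw [htd, Real.rpow_def_of_pos (by norm_num)]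
    have hl2 := Real.log_two_gt_d9
    have hz6 : zz K I ^ 6 ≤ t := by
      unfold zz
      rw [← Real.exp_nat_mul, hte, Real.exp_le_exp]
      have h2 : (I : ℝ) / (K * L) ≤ I / 40 := by
        apply div_le_div_of_nonneg_left hI0.le (by norm_num)
        nlinarith
      push_cast
      nlinarith
    have hIt : (I : ℝ) ≤ 6 * t := by
      have h2 := Real.add_one_le_exp (Real.log 2 * (I / 4))
      rw [← hte] at h2
      nlinarith
    have h3 : t * (t * zz K I ^ 6) ≤ 6 * 2 ^ I / I := by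
      rw [le_div_iff₀ hI0]
      calc t * (t * zz K I ^ 6) * I ≤ t * (t * t) * (6 * t) := by gcongr
        _ = 6 * t ^ 4 := by ring
        _ = 6 * 2 ^ I := by rw [ht4]
    have h4 : (2 : ℝ) ^ I / Real.log (zz K I) = 2 ^ I * (K * (L / I)) := by
      rw [hlog]
      field_simp
    rw [h4] at h1
    have h5 : 2 ^ I * (C / I) + (A (j + 1) I * (2 ^ I * (K * (L / I))) + 6 * 2 ^ I / I) ≤
        (C + K + 6) * 2 ^ I * (L / I) * A (j + 1) I := by
      have h6 : 1 / (I : ℝ) ≤ L / I * A (j + 1) I := by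
        calc 1 / (I : ℝ) = 1 / I * 1 := by ring
          _ ≤ L / I * A (j + 1) I := by gcongr
      have h7 : 2 ^ I * (C / I) + 6 * 2 ^ I / I = (C + 6) * 2 ^ I * (1 / (I : ℝ)) := by ring
      have h8 : (C + 6) * 2 ^ I * (1 / (I : ℝ)) ≤ (C + 6) * 2 ^ I * (L / I * A (j + 1) I) := by
        gcongr
      linarith [h7, h8]
    linarith [h1, h3, h5]

end Pool.Agent.AAO

example : type_of% @Pool.Agent.AAO.step := @Pool.Agent.AAO.step
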